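import Mathlib

/-! The local ring at the centre of a valuation ring. -/

set_option autoImplicit false
set_option linter.unusedSectionVars false

universe u

open IsLocalRing

namespace Pool.Agent.Helper819.LU

variable {F : Type u} [Field F]

/-- The local ring of `Spec B` at the centre of `V`. -/
def cr (V : ValuationSubring F) (B : Subring F) : Subring F where
  carrier := {x | ∃ a ∈ B, ∃ b ∈ B, V.valuation b = 1 ∧ x = a / b}
  mul_mem' := by
    rintro _ _ ⟨a, ha, b, hb, h, rfl⟩ ⟨a', ha', b', hb', h', rfl⟩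
    exact ⟨a * a', B.mul_mem ha ha', b * b', B.mul_mem hb hb', by rw [map_mul, h, h', one_mul],
      by rw [div_mul_div_comm]⟩
  one_mem' := ⟨1, B.one_mem, 1, B.one_mem, map_one _, by rw [div_one]⟩
  add_mem' := by
    rintro _ _ ⟨a, ha, b, hb, h, rfl⟩ ⟨a', ha', b', hb', h', rfl⟩
    have hb0 : b ≠ 0 := by rintro rfl; rw [map_zero] at h; exact zero_ne_one h
    have hb0' : b' ≠ 0 := by rintro rfl; rw [map_zero] at h'; exact zero_ne_one h'
    exact ⟨a * b' + b * a', B.add_mem (B.mul_mem ha hb') (B.mul_mem hb ha'), b * b',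
      B.mul_mem hb hb', by rw [map_mul, h, h', one_mul], div_add_div _ _ hb0 hb0'⟩
  zero_mem' := ⟨0, B.zero_mem, 1, B.one_mem, map_one _, by rw [div_one]⟩
  neg_mem' := by
    rintro _ ⟨a, ha, b, hb, h, rfl⟩
    exact ⟨-a, B.neg_mem ha, b, hb, h, by rw [neg_div]⟩

lemma ne_zero_of_val {V : ValuationSubring F} {b : F} (h : V.valuation b = 1) : b ≠ 0 := by
  rintro rfl
  rw [map_zero] at h
  exact zero_ne_one h

/-- The centre ring only depends on the localization. -/
lemma cr_eq (V : ValuationSubring F) {D B : Subring F} (hDB : D ≤ B)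
    (hden : ∀ a ∈ B, ∃ c ∈ D, V.valuation c = 1 ∧ c * a ∈ D) : cr V D = cr V B := by
  apply le_antisymm
  · rintro _ ⟨a, ha, b, hb, h, rfl⟩
    exact ⟨a, hDB ha, b, hDB hb, h, rfl⟩
  · rintro _ ⟨a, ha, b, hb, h, rfl⟩
    obtain ⟨c, hc, hc1, hca⟩ := hden a ha
    obtain ⟨c', hc', hc1', hcb⟩ := hden b hb
    have h0 := ne_zero_of_val hc1
    have h0' := ne_zero_of_val hc1'
    have hb0 := ne_zero_of_val h
    refine ⟨c' * (c * a), D.mul_mem hc' hca, c * (c' * b), D.mul_mem hc hcb, ?_, ?_⟩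
    · rw [map_mul, map_mul, hc1, hc1', h, one_mul, one_mul]
    · field_simp

/-- The localization at a prime ideal inside the field. -/
theorem loc_equiv {A : Type u} [CommRing A] (ι : A →+* F) (hι : Function.Injective ι)
    (q : Ideal A) [q.IsPrime] (O : Subring F)
    (hmem : ∀ x, x ∈ O ↔ ∃ a b : A, b ∉ q ∧ x = ι a / ι b) :
    Nonempty (Localization.AtPrime q ≃+* O) := by
  have hne : ∀ b : A, b ∉ q → ι b ≠ 0 := by
    intro b hb h
    apply hb
    have : b = 0 := hι (by rw [h, map_zero])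
    rw [this]
    exact q.zero_mem
  let ψ : Localization.AtPrime q →+* F := IsLocalization.lift (M := q.primeCompl) (g := ι)
    (fun b => IsUnit.mk0 _ (hne b b.2))
  have hψ : ∀ (a : A) (b : q.primeCompl), ψ (IsLocalization.mk' _ a b) = ι a / ι b := by
    intro a b
    rw [IsLocalization.lift_mk'_spec, mul_div_cancel₀]
    exact hne b b.2
  have hψinj : Function.Injective ψ := by
    rw [injective_iff_map_eq_zero]
    intro x hx
    obtain ⟨a, b, rfl⟩ := IsLocalization.exists_mk'_eq q.primeCompl x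
    rw [hψ, div_eq_zero_iff] at hx
    have h1 : ι a = 0 := hx.resolve_right (hne b b.2)
    have h2 : a = 0 := hι (by rw [h1, map_zero])
    rw [h2, IsLocalization.mk'_zero]
  have hrange : O = ψ.range := by
    ext x
    rw [hmem]
    constructor
    · rintro ⟨a, b, hb, rfl⟩
      exact ⟨IsLocalization.mk' _ a ⟨b, hb⟩, hψ a ⟨b, hb⟩⟩
    · rintro ⟨y, rfl⟩
      obtain ⟨a, b, rfl⟩ := IsLocalization.exists_mk'_eq q.primeCompl y
      exact ⟨a, b, b.2, hψ a b⟩
  rw [hrange]
  exact ⟨RingEquiv.ofBijective ψ.rangeRestrict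
      ⟨fun x y h => hψinj (congrArg Subtype.val h), ψ.rangeRestrict_surjective⟩⟩

/-- The centre on an algebra with a homomorphism to the valuation ring. -/
theorem reg_iff {A : Type u} [CommRing A] (ι : A →+* F) (hι : Function.Injective ι)
    (V : ValuationSubring F) (hV : ∀ a, ι a ∈ V)
    (q : Ideal A) [q.IsPrime] (hq : ∀ a, a ∈ q ↔ V.valuation (ι a) < 1) :
    IsRegularLocalRing (Localization.AtPrime q) ↔ IsRegularLocalRing (cr V ι.range) := by
  have hval : ∀ b, b ∉ q ↔ V.valuation (ι b) = 1 := by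
    intro b
    rw [hq, not_lt]
    constructor
    · intro h
      exact le_antisymm ((V.valuation_le_one_iff _).2 (hV b)) h
    · intro h
      rw [h]
  obtain ⟨e⟩ := loc_equiv ι hι q (cr V ι.range) (by
    intro x
    constructor
    · rintro ⟨_, ⟨a, rfl⟩, _, ⟨b, rfl⟩, h, rfl⟩
      exact ⟨a, b, (hval b).2 h, rfl⟩
    · rintro ⟨a, b, hb, rfl⟩
      exact ⟨_, ⟨a, rfl⟩, _, ⟨b, rfl⟩, (hval b).1 hb, rfl⟩)
  exact ⟨fun h => IsRegularLocalRing.of_ringEquiv e, fun h => IsRegularLocalRing.of_ringEquiv e.symm⟩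

/-- The centre exists. -/
theorem exists_centre {A : Type u} [CommRing A] (ι : A →+* F) (V : ValuationSubring F)
    (hV : ∀ a, ι a ∈ V) :
    ∃ q : Ideal A, q.IsPrime ∧ ∀ a, a ∈ q ↔ V.valuation (ι a) < 1 := by
  let ι' : A →+* V := ι.codRestrict V.toSubring hV
  refine ⟨(maximalIdeal V).comap ι', Ideal.IsPrime.comap ι', fun a => ?_⟩
  change ι' a ∈ maximalIdeal V ↔ _
  exact V.valuation_lt_one_iff (ι' a)

end Pool.Agent.Helper819.LU
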