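import Pool.Agent.Helper819.TR.ChartD

/-! Adapted coordinates over the birational modifications of the base. -/

set_option autoImplicit false
set_option linter.unusedSectionVars false

universe u v

open scoped TensorProduct

open Pool.Agent.Helper819.TR Pool.Agent.Helper819.TR.RD

namespace Pool.Agent.Helper819.LU

/-- Cramer's rule. -/
theorem cramer_mem {K : Type u} [Field K] {r : ℕ} {Q : Type} (O : Subring K) (c : Q → Fin r → K)
    (I0 : Fin r → Q) (h0 : (Matrix.of fun a => c (I0 a)).det ≠ 0)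
    (h : ∀ I : Fin r → Q, (Matrix.of fun a => c (I a)).det /
      (Matrix.of fun a => c (I0 a)).det ∈ O) (q : Q) :
    ∃ e : Fin r → O, ∀ l, c q l = ∑ a, (e a : K) * c (I0 a) l := by
  classical
  set N : Matrix (Fin r) (Fin r) K := Matrix.of fun a => c (I0 a) with hN
  have h1 : ∀ a, (N.updateRow a (c q)).det / N.det ∈ O := by
    intro a
    have h2 : N.updateRow a (c q) = Matrix.of fun a' => c (Function.update I0 a q a') := by
      ext a' l
      by_cases ha : a' = a
      · subst ha
        rw [Matrix.updateRow_self]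
        simp
      · rw [Matrix.updateRow_ne ha]
        simp [hN, ha]
    rw [h2]
    exact h _
  refine ⟨fun a => ⟨_, h1 a⟩, fun l => ?_⟩
  have h3 := congrFun (Matrix.mulVec_cramer N.transpose (c q)) l
  rw [Matrix.mulVec, dotProduct, Matrix.det_transpose] at h3
  simp only [Matrix.cramer_transpose_apply, Matrix.transpose_apply, Pi.smul_apply,
    smul_eq_mul] at h3
  have h4 : c q l = (∑ a, N a l * (N.updateRow a (c q)).det) / N.det := by
    rw [h3]; field_simp
  rw [h4, Finset.sum_div]
  refine Finset.sum_congr rfl fun a _ => ?_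
  change _ = (N.updateRow a (c q)).det / N.det * N a l
  ring

theorem chart {A K D : Type u} [CommRing A] [Field K] [CommRing D]
    [Algebra A K] [Bialgebra K D] [Algebra A D] [IsScalarTower A K D] [IsNoetherianRing A]
    (p : ℕ) [hp : Fact p.Prime] [CharP K p] (m : ℕ) (v : Fin m → D)
    (hv : ∀ i, Coalgebra.comul (R := K) (v i) = v i ⊗ₜ[K] 1 + 1 ⊗ₜ[K] v i)
    (hint : ∀ i, IsIntegral A (v i)) :
    ∃ (n : ℕ) (x : Fin n → K), 0 < n ∧ (∀ i, x i ≠ 0) ∧ ∀ O : Subalgebra A K,
      (∃ j, ∀ i, x i / x j ∈ O) → ∃ (r : ℕ) (ι : Fin r → Fin m) (κ : Fin r → ℕ)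
        (U : Fin m → Fin r → O) (F : Fin r → Fin r → O),
        (∀ i, v i = ∑ l, algebraMap K D (U i l) * v (ι l) ^ p ^ κ l) ∧
        (∀ l, (v (ι l) ^ p ^ κ l) ^ p = ∑ s, algebraMap K D (F l s) * v (ι s) ^ p ^ κ s) ∧
        ∀ a : (Fin r → Fin p) → O,
          ∑ α, algebraMap K D (a α) * red (fun l => v (ι l) ^ p ^ κ l) α = 0 → ∀ α, a α = 0 := by
  classical
  have hp1 := hp.out.one_lt
  have hnt : Nontrivial D := nontrivial_of_bialgebra K D
  have hchD : CharP D p := charP_of_bialgebra K D p
  obtain ⟨κ0, hκ0, hrel⟩ := exists_relD (A := A) v hint p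
  choose a ha using hrel
  let u : Fin m × Fin κ0 → D := fun q => v q.1 ^ p ^ (q.2 : ℕ)
  have huprim : ∀ q, Coalgebra.comul (R := K) (u q) = u q ⊗ₜ[K] 1 + 1 ⊗ₜ[K] u q :=
    fun q => comul_pow (v q.1) (hv q.1) _
  have hfinsp : Module.Finite K (Submodule.span K (Set.range u)) :=
    FiniteDimensional.span_of_finite K (Set.finite_range u)
  obtain ⟨f, hf1, hf2, hf3⟩ := Submodule.exists_fun_fin_finrank_span_eq K (Set.range u)
  generalize hr : Module.finrank K (Submodule.span K (Set.range u)) = r at f hf1 hf2 hf3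
  choose I1 hI1 using hf1
  have hc : ∀ q, ∃ c : Fin r → K, ∑ l, c l • f l = u q := fun q =>
    (Submodule.mem_span_range_iff_exists_fun K).1
      (by rw [hf2]; exact Submodule.subset_span ⟨q, rfl⟩)
  choose cK hc using hc
  have hcI1 : (Matrix.of fun a => cK (I1 a)) = 1 := by
    ext a l
    have h1 : ∑ l, (cK (I1 a) l - if l = a then 1 else 0) • f l = 0 := by
      simp only [sub_smul, Finset.sum_sub_distrib]
      rw [hc, hI1]
      simp
    have h2 := sub_eq_zero.1 (Fintype.linearIndependent_iff.1 hf3 _ h1 l)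
    change cK (I1 a) l = _
    rw [h2, Matrix.one_apply]
    split_ifs with h3 h4 h4
    · rfl
    · exact absurd h3.symm h4
    · exact absurd h4.symm h3
    · rfl
  -- the minors
  let S : Type := {I : Fin r → Fin m × Fin κ0 // (Matrix.of fun a => cK (I a)).det ≠ 0}
  have hSfin : Finite S := inferInstance
  let e : S ≃ Fin (Nat.card S) := Finite.equivFin S
  have hSne : Nonempty S := ⟨⟨I1, by rw [hcI1, Matrix.det_one]; exact one_ne_zero⟩⟩
  refine ⟨Nat.card S, fun i => (Matrix.of fun a => cK ((e.symm i).1 a)).det, Nat.card_pos,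
    fun i => (e.symm i).2, ?_⟩
  rintro O ⟨j, hj⟩
  let I0 := (e.symm j).1
  have hdet : ∀ I : Fin r → Fin m × Fin κ0, (Matrix.of fun a => cK (I a)).det /
      (Matrix.of fun a => cK (I0 a)).det ∈ O.toSubring := by
    intro I
    by_cases hI : (Matrix.of fun a => cK (I a)).det = 0
    · rw [hI, zero_div]; exact Subring.zero_mem _
    · have h1 := hj (e ⟨I, hI⟩)
      simp only [Equiv.symm_apply_apply] at h1
      exact h1
  choose e' he' using cramer_mem O.toSubring cK I0 (e.symm j).2 hdet
  have hu : ∀ q, u q = ∑ b, algebraMap K D (e' q b) * u (I0 b) := by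
    intro q
    have h1 : ∀ q, u q = ∑ l, algebraMap K D (cK q l) * f l := by
      intro q
      rw [← hc q]
      exact Finset.sum_congr rfl fun l _ => Algebra.smul_def _ _
    rw [h1 q]
    have h2 : ∀ l, algebraMap K D (cK q l) * f l =
        ∑ b, algebraMap K D (e' q b) * (algebraMap K D (cK (I0 b) l) * f l) := by
      intro l
      rw [he' q l, map_sum, Finset.sum_mul]
      refine Finset.sum_congr rfl fun b _ => ?_
      rw [map_mul, mul_assoc]
    rw [Finset.sum_congr rfl fun l _ => h2 l, Finset.sum_comm]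
    refine Finset.sum_congr rfl fun b _ => ?_
    rw [← Finset.mul_sum, ← h1 (I0 b)]
  let F : Fin r → Fin r → O := fun l s =>
    if h : ((I0 l).2 : ℕ) + 1 < κ0 then e' ((I0 l).1, ⟨_, h⟩) s
    else ∑ q, algebraMap A O (a (I0 l).1 q) * (e' q s : O)
  have hU : ∀ i, v i = ∑ l, algebraMap K D (e' (i, ⟨0, hκ0⟩) l) * u (I0 l) := by
    intro i
    rw [← hu]
    change _ = v i ^ p ^ 0
    rw [pow_zero, pow_one]
  have hF : ∀ l, u (I0 l) ^ p = ∑ s, algebraMap K D (F l s) * u (I0 s) := by
    intro l
    have h1 : u (I0 l) ^ p = v (I0 l).1 ^ p ^ (((I0 l).2 : ℕ) + 1) := by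
      change (v (I0 l).1 ^ p ^ ((I0 l).2 : ℕ)) ^ p = _
      rw [← pow_mul, ← pow_succ]
    by_cases h : ((I0 l).2 : ℕ) + 1 < κ0
    · have h2 := hu ((I0 l).1, ⟨_, h⟩)
      have h3 : u (I0 l) ^ p = u ((I0 l).1, ⟨_, h⟩) := h1
      rw [h3, h2]
      refine Finset.sum_congr rfl fun s _ => ?_
      simp only [F, dif_pos h]
    · have h2 : ((I0 l).2 : ℕ) + 1 = κ0 := by
        have := (I0 l).2.2
        omega
      rw [h1, h2, ha (I0 l).1]
      have h3 : ∀ q, algebraMap A D (a (I0 l).1 q) * v q.1 ^ p ^ (q.2 : ℕ) =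
          ∑ s, algebraMap K D (algebraMap A K (a (I0 l).1 q) * (e' q s : K)) * u (I0 s) := by
        intro q
        rw [IsScalarTower.algebraMap_apply A K D]
        change _ * u q = _
        rw [hu q, Finset.mul_sum]
        refine Finset.sum_congr rfl fun s _ => ?_
        rw [map_mul, mul_assoc]
      rw [Finset.sum_congr rfl fun q _ => h3 q, Finset.sum_comm]
      refine Finset.sum_congr rfl fun s _ => ?_
      rw [← Finset.sum_mul, ← map_sum]
      congr 2
      simp only [F, dif_neg h]
      rw [AddSubmonoidClass.coe_finsetSum]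
      rfl
  have hspan : Submodule.span K (Set.range fun l => u (I0 l)) =
      Submodule.span K (Set.range u) := by
    apply le_antisymm
    · apply Submodule.span_mono
      rintro _ ⟨l, rfl⟩
      exact ⟨_, rfl⟩
    · rw [Submodule.span_le]
      rintro _ ⟨q, rfl⟩
      rw [hu q]
      refine Submodule.sum_mem _ fun b _ => ?_
      rw [← Algebra.smul_def]
      exact Submodule.smul_mem _ _ (Submodule.subset_span ⟨b, rfl⟩)
  have hli : LinearIndependent K (fun l => u (I0 l)) := by
    rw [linearIndependent_iff_card_eq_finrank_span, Fintype.card_fin, Set.finrank, hspan, hr]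
  have hpbw := indep_prim (K := K) (D := D) (p := p) (fun l => u (I0 l))
    (fun l => huprim (I0 l)) hli
  refine ⟨r, fun l => (I0 l).1, fun l => ((I0 l).2 : ℕ), fun i => e' (i, ⟨0, hκ0⟩), F, hU, hF,
    fun a ha => ?_⟩
  have h1 := Fintype.linearIndependent_iff.1 hpbw (fun α => (a α : K)) (by
    rw [← ha]
    exact Finset.sum_congr rfl fun α _ => Algebra.smul_def _ _)
  exact fun α => Subtype.ext (h1 α)

end Pool.Agent.Helper819.LU
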