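import Pool.Agent.Helper819.LU.Fin

/-! Ascent of local uniformization. -/

set_option autoImplicit false
set_option linter.unusedSectionVars false

universe u

open MvPolynomial Pool.Agent.Helper819.TR Pool.Agent.Helper819.TR.RD

open scoped TensorProduct

namespace Pool.Agent.Helper819.LU

/-- Every element of a finite family divides by a suitable one. -/
lemma exists_min {K : Type u} [Field K] (V : ValuationSubring K) {n : ℕ} (hn : 0 < n)
    (x : Fin n → K) : ∃ j, ∀ i, x i / x j ∈ V := by
  obtain ⟨j, -, hj⟩ := Finset.exists_max_image Finset.univ (fun i => V.valuation (x i))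
    ⟨⟨0, hn⟩, Finset.mem_univ _⟩
  refine ⟨j, fun i => ?_⟩
  rw [← V.valuation_le_one_iff, map_div₀]
  exact div_le_one_of_le₀ (hj i (Finset.mem_univ _)) zero_le

/-- Integrality of the coordinates over the ring of invariants. -/
theorem isIntegral_X {A D : Type u} [CommRing A] [IsNoetherianRing A] [CommRing D] [Algebra A D]
    (p : ℕ) [hp : Fact p.Prime] [CharP D p] {m : ℕ} (v : Fin m → D)
    (hint : ∀ i, IsIntegral A (v i)) (i : Fin m) :
    IsIntegral (invT A ({v} : Set (Fin m → D))) (X i : MvPolynomial (Fin m) A) := by
  obtain ⟨κ0, hκ0, hrel⟩ := exists_relD (A := A) v hint p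
  choose a ha using hrel
  have hfin : Module.Finite (invT A ({v} : Set (Fin m → D))) (MvPolynomial (Fin m) A) := by
    refine finite_of_rel p hp.out.one_lt _ κ0 hκ0 a fun i => ?_
    rw [mem_invT]
    rintro w hw
    rw [Set.mem_singleton_iff.1 hw]
    have h2 := congrArg (C : D → MvPolynomial (Fin m) D) (ha i)
    simp only [map_sub, map_sum, map_mul, map_pow, MvPolynomial.map_X, MvPolynomial.map_C,
      tr_X, tr_C, add_pow_char_pow]
    simp only [map_sum, map_mul, map_pow] at h2
    rw [h2]
    simp only [mul_add, Finset.sum_add_distrib]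
    ring
  exact Algebra.IsIntegral.isIntegral _

section core

variable {A K D : Type u} [CommRing A] [IsDomain A] [Field K] [Algebra A K]
  [IsFractionRing A K] [CommRing D] [Bialgebra K D] [Algebra A D] [IsScalarTower A K D]
  {m : ℕ} (v : Fin m → D) (B : Subalgebra A K)

/-- The image of an algebra of polynomials in the field of rational functions. -/
noncomputable def gR (K : Type u) [Field K] (O : Type u) [CommRing O] [Algebra O K] (m : ℕ) :
    MvPolynomial (Fin m) O →+* FractionRing (MvPolynomial (Fin m) K) :=
  (algebraMap (MvPolynomial (Fin m) K) _).comp (MvPolynomial.map (algebraMap O K))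

lemma gR_inj (K : Type u) [Field K] (O : Type u) [CommRing O] [Algebra O K] (m : ℕ)
    (h : Function.Injective (algebraMap O K)) : Function.Injective (gR K O m) :=
  (IsFractionRing.injective _ _).comp (MvPolynomial.map_injective _ h)

lemma val_inj (A K : Type u) [CommRing A] [Field K] [Algebra A K] [IsFractionRing A K]
    {D : Type u} [CommRing D] [Algebra A D] {m : ℕ} (v : Fin m → D) :
    Function.Injective ((gR K A m).comp (invT A ({v} : Set (Fin m → D))).val.toRingHom) :=
  (gR_inj K A m (IsFractionRing.injective A K)).comp Subtype.val_injective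

/-- Base change of the invariants. -/
noncomputable def θ : invT A ({v} : Set (Fin m → D)) →+* invT B ({v} : Set (Fin m → D)) :=
  ((MvPolynomial.map (algebraMap A B)).comp
    (invT A ({v} : Set (Fin m → D))).val.toRingHom).codRestrict
    (invT B ({v} : Set (Fin m → D))).toSubring (by
      rintro ⟨f, hf⟩
      change MvPolynomial.map (algebraMap A B) f ∈ invT B ({v} : Set (Fin m → D))
      rw [mem_invT] at hf ⊢
      intro w hw
      have h1 : (algebraMap B D).comp (algebraMap A B) = algebraMap A D := by
        ext a
        change algebraMap K D (algebraMap A K a) = _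
        exact (IsScalarTower.algebraMap_apply A K D a).symm
      rw [MvPolynomial.map_map, h1]
      exact hf w hw)

lemma gR_θ (s : invT A ({v} : Set (Fin m → D))) :
    gR K B m (θ v B s : MvPolynomial (Fin m) B) = gR K A m (s : MvPolynomial (Fin m) A) := by
  change algebraMap (MvPolynomial (Fin m) K) (FractionRing (MvPolynomial (Fin m) K))
    (MvPolynomial.map (algebraMap B K) (MvPolynomial.map (algebraMap A B)
    (s : MvPolynomial (Fin m) A))) = algebraMap (MvPolynomial (Fin m) K)
    (FractionRing (MvPolynomial (Fin m) K)) (MvPolynomial.map (algebraMap A K) _)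
  rw [MvPolynomial.map_map]
  rfl

/-- Denominators. -/
lemma exists_den (g : MvPolynomial (Fin m) K) : ∃ (c : A) (f : MvPolynomial (Fin m) A), c ≠ 0 ∧
    C (algebraMap A K c) * g = MvPolynomial.map (algebraMap A K) f := by
  induction g using MvPolynomial.induction_on with
  | C z =>
    obtain ⟨a, b, hb, rfl⟩ := IsFractionRing.div_surjective (A := A) z
    have hb0 : algebraMap A K b ≠ 0 :=
      (FaithfulSMul.algebraMap_eq_zero_iff A K).not.2 (nonZeroDivisors.ne_zero hb)
    refine ⟨b, C a, nonZeroDivisors.ne_zero hb, ?_⟩
    rw [MvPolynomial.map_C, ← C_mul, mul_div_cancel₀ _ hb0]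
  | add g g' hg hg' =>
    obtain ⟨c, f, hc, h⟩ := hg
    obtain ⟨c', f', hc', h'⟩ := hg'
    refine ⟨c * c', C c' * f + C c * f', mul_ne_zero hc hc', ?_⟩
    rw [map_add, map_mul (MvPolynomial.map (algebraMap A K)),
      map_mul (MvPolynomial.map (algebraMap A K)), ← h, ← h', MvPolynomial.map_C,
      MvPolynomial.map_C, map_mul, C_mul]
    ring
  | mul_X g i hg =>
    obtain ⟨c, f, hc, h⟩ := hg
    refine ⟨c, f * X i, hc, ?_⟩
    rw [map_mul, ← h, MvPolynomial.map_X]
    ring

variable {F : Type u} [Field F] [Algebra (invT A ({v} : Set (Fin m → D))) F]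
  [IsFractionRing (invT A ({v} : Set (Fin m → D))) F]

variable (A K F)

/-- The embedding of the fraction field of the invariants. -/
noncomputable def jF {D : Type u} (A K F : Type u) [CommRing A] [IsDomain A] [Field K] [Algebra A K]
    [IsFractionRing A K] [CommRing D] [Algebra A D] {m : ℕ} (v : Fin m → D) [Field F]
    [Algebra (invT A ({v} : Set (Fin m → D))) F]
    [IsFractionRing (invT A ({v} : Set (Fin m → D))) F] : F →+* FractionRing (MvPolynomial (Fin m) K) :=
  IsFractionRing.lift (A := invT A ({v} : Set (Fin m → D))) (val_inj A K v)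

lemma jF_alg (s : invT A ({v} : Set (Fin m → D))) :
    jF A K F v (algebraMap _ F s) = gR K A m (s : MvPolynomial (Fin m) A) :=
  IsFractionRing.lift_algebraMap _ _

variable {A K}

/-- The elements of the base change of the invariants lie in the fraction field. -/
lemma exists_jF (s : invT B ({v} : Set (Fin m → D))) :
    ∃ z : F, jF A K F v z = gR K B m (s : MvPolynomial (Fin m) B) := by
  obtain ⟨c, f, hc, hf⟩ := exists_den (A := A) (MvPolynomial.map (algebraMap B K)
    (s : MvPolynomial (Fin m) B))
  have hs := mem_invT.1 s.2
  have hfm : f ∈ invT A ({v} : Set (Fin m → D)) := by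
    rw [mem_invT]
    intro w hw
    have h1 : MvPolynomial.map (algebraMap A D) f = C (algebraMap A D c) *
        MvPolynomial.map (algebraMap B D) (s : MvPolynomial (Fin m) B) := by
      have h2 := congrArg (MvPolynomial.map (algebraMap K D)) hf
      rw [MvPolynomial.map_map, ← IsScalarTower.algebraMap_eq, map_mul, MvPolynomial.map_C,
        ← IsScalarTower.algebraMap_apply, MvPolynomial.map_map] at h2
      rw [← h2]
      rfl
    rw [h1, map_mul, tr_C, hs w hw]
  have hc0 : gR K A m (C c) ≠ 0 := by
    intro h
    apply hc
    have h1 := gR_inj K A m (IsFractionRing.injective A K) (h.trans (map_zero _).symm)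
    exact C_injective _ _ (h1.trans C_0.symm)
  refine ⟨algebraMap (invT A ({v} : Set (Fin m → D))) F ⟨f, hfm⟩ /
    algebraMap (invT A ({v} : Set (Fin m → D))) F (algebraMap A _ c), ?_⟩
  rw [map_div₀, jF_alg, jF_alg]
  change gR K A m f / gR K A m (C c) = _
  rw [div_eq_iff hc0]
  change algebraMap (MvPolynomial (Fin m) K) (FractionRing (MvPolynomial (Fin m) K))
    (MvPolynomial.map (algebraMap A K) f) = algebraMap (MvPolynomial (Fin m) K)
    (FractionRing (MvPolynomial (Fin m) K)) (MvPolynomial.map (algebraMap B K) _) *
    algebraMap (MvPolynomial (Fin m) K) (FractionRing (MvPolynomial (Fin m) K))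
    (MvPolynomial.map _ (C c))
  rw [← hf, map_mul, MvPolynomial.map_C, mul_comm]

/-- The base change of the invariants as a subring of the fraction field. -/
noncomputable def φ : invT B ({v} : Set (Fin m → D)) →+* F where
  toFun s := (exists_jF v B F s).choose
  map_one' := by
    apply (jF A K F v).injective
    rw [(exists_jF v B F 1).choose_spec, map_one]
    exact map_one _
  map_mul' a b := by
    apply (jF A K F v).injective
    rw [map_mul, (exists_jF v B F _).choose_spec, (exists_jF v B F _).choose_spec,
      (exists_jF v B F _).choose_spec]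
    exact map_mul _ _ _
  map_zero' := by
    apply (jF A K F v).injective
    rw [(exists_jF v B F 0).choose_spec, map_zero]
    exact map_zero _
  map_add' a b := by
    apply (jF A K F v).injective
    rw [map_add, (exists_jF v B F _).choose_spec, (exists_jF v B F _).choose_spec,
      (exists_jF v B F _).choose_spec]
    exact map_add _ _ _

lemma jF_φ (s : invT B ({v} : Set (Fin m → D))) :
    jF A K F v (φ v B F s) = gR K B m (s : MvPolynomial (Fin m) B) :=
  (exists_jF v B F s).choose_spec

lemma φ_inj : Function.Injective (φ v B F) := by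
  intro a b h
  have h1 := congrArg (jF A K F v) h
  rw [jF_φ, jF_φ] at h1
  exact Subtype.ext (gR_inj K B m Subtype.val_injective h1)

lemma φ_θ (s : invT A ({v} : Set (Fin m → D))) : φ v B F (θ v B s) = algebraMap _ F s := by
  apply (jF A K F v).injective
  rw [jF_φ, jF_alg, gR_θ]

variable (A K)

/-- The embedding of the fraction field of the base. -/
noncomputable def iK {D : Type u} (A K F : Type u) [CommRing A] [IsDomain A] [Field K] [Algebra A K]
    [IsFractionRing A K] [CommRing D] [Algebra A D] {m : ℕ} (v : Fin m → D) [Field F]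
    [Algebra (invT A ({v} : Set (Fin m → D))) F]
    [IsFractionRing (invT A ({v} : Set (Fin m → D))) F] : K →+* F :=
  IsFractionRing.lift (A := A) (K := K) (g := (algebraMap (invT A ({v} : Set (Fin m → D))) F).comp
    (algebraMap A (invT A ({v} : Set (Fin m → D))))) (by
      refine (IsFractionRing.injective _ F).comp ?_
      intro a b h
      exact C_injective _ _ (congrArg Subtype.val h))

lemma iK_alg (a : A) : iK A K F v (algebraMap A K a) =
    algebraMap _ F (algebraMap A (invT A ({v} : Set (Fin m → D))) a) :=
  IsFractionRing.lift_algebraMap _ _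

lemma jF_iK (z : K) : jF A K F v (iK A K F v z) =
    algebraMap (MvPolynomial (Fin m) K) _ (C z) := by
  have h : (jF A K F v).comp (iK A K F v) =
      (algebraMap (MvPolynomial (Fin m) K) (FractionRing (MvPolynomial (Fin m) K))).comp C := by
    refine IsLocalization.ringHom_ext (nonZeroDivisors A) ?_
    ext a
    change jF A K F v (iK A K F v (algebraMap A K a)) = algebraMap (MvPolynomial (Fin m) K)
      (FractionRing (MvPolynomial (Fin m) K)) (C (algebraMap A K a))
    rw [iK_alg, jF_alg]
    change algebraMap (MvPolynomial (Fin m) K) (FractionRing (MvPolynomial (Fin m) K))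
      (MvPolynomial.map _ (C a)) = _
    rw [MvPolynomial.map_C]
  exact congrArg (fun g => g z) h

variable {A K}

lemma φ_alg (b : B) : φ v B F (algebraMap B _ b) = iK A K F v (b : K) := by
  apply (jF A K F v).injective
  rw [jF_φ, jF_iK]
  change algebraMap (MvPolynomial (Fin m) K) (FractionRing (MvPolynomial (Fin m) K))
    (MvPolynomial.map _ (C b)) = _
  rw [MvPolynomial.map_C]
  rfl

/-- The base change of the invariants lies in the valuation ring. -/
lemma φ_mem [IsNoetherianRing A] (p : ℕ) [hp : Fact p.Prime] [CharP D p] (hint : ∀ i, IsIntegral A (v i))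
    (V : ValuationSubring F) (hV : ∀ s, algebraMap (invT A ({v} : Set (Fin m → D))) F s ∈ V)
    (hB : ∀ b : B, iK A K F v (b : K) ∈ V) (s : invT B ({v} : Set (Fin m → D))) :
    φ v B F s ∈ V := by
  classical
  let ψ : V →+* FractionRing (MvPolynomial (Fin m) K) := (jF A K F v).comp V.subtype
  have hall : ∀ g : MvPolynomial (Fin m) B, ψ.IsIntegralElem (gR K B m g) := by
    intro g
    induction g using MvPolynomial.induction_on with
    | C b =>
      have h1 : gR K B m (C b) = ψ ⟨_, hB b⟩ := by
        change algebraMap (MvPolynomial (Fin m) K) (FractionRing (MvPolynomial (Fin m) K))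
          (MvPolynomial.map _ (C b)) = jF A K F v (iK A K F v (b : K))
        rw [jF_iK, MvPolynomial.map_C]
        rfl
      rw [h1]
      exact ψ.isIntegralElem_map
    | add g g' hg hg' => rw [map_add]; exact RingHom.IsIntegralElem.add ψ hg hg'
    | mul_X g i hg =>
      rw [map_mul]
      refine RingHom.IsIntegralElem.mul ψ hg ?_
      obtain ⟨q, hq, hq0⟩ := isIntegral_X (A := A) p v hint i
      let σ : invT A ({v} : Set (Fin m → D)) →+* V :=
        (algebraMap (invT A ({v} : Set (Fin m → D))) F).codRestrict V.toSubring hV
      refine ⟨q.map σ, hq.map σ, ?_⟩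
      rw [Polynomial.eval₂_map]
      have h1 : ψ.comp σ = (gR K A m).comp (algebraMap (invT A ({v} : Set (Fin m → D))) _) := by
        ext s
        exact jF_alg (A := A) (K := K) (F := F) (v := v) s
      have h2 : gR K B m (X i) = gR K A m (X i) := by
        change algebraMap (MvPolynomial (Fin m) K) (FractionRing (MvPolynomial (Fin m) K))
          (MvPolynomial.map _ (X i)) = algebraMap (MvPolynomial (Fin m) K)
          (FractionRing (MvPolynomial (Fin m) K)) (MvPolynomial.map _ (X i))
        rw [MvPolynomial.map_X, MvPolynomial.map_X]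
      rw [h1, h2, ← Polynomial.hom_eval₂, hq0, map_zero]
  obtain ⟨q, hq, hq0⟩ := hall (s : MvPolynomial (Fin m) B)
  have h1 : IsIntegral V (φ v B F s) := by
    refine ⟨q, hq, ?_⟩
    apply (jF A K F v).injective
    rw [map_zero, Polynomial.hom_eval₂, jF_φ]
    exact hq0
  obtain ⟨y, hy⟩ := IsIntegrallyClosed.isIntegral_iff.1 h1
  rw [← hy]
  exact y.2

end core

end Pool.Agent.Helper819.LU
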