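import Pool.Agent.Helper819.LU.Reg
import Pool.Agent.Helper819.LU.Chart
import Pool.Agent.Helper819.LU.Centre
import Pool.Agent.Helper819.TR.ExtD

/-! Ascent of local uniformization. -/

set_option autoImplicit false
set_option linter.unusedSectionVars false

universe u

open MvPolynomial Pool.Agent.Helper819.TR Pool.Agent.Helper819.TR.RD

open scoped TensorProduct

namespace Pool.Agent.Helper819.LU

section int

variable {A : Type u} [CommRing A] {m : ℕ}

/-- The polynomial ring is finite over the ring of invariants. -/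
theorem finite_of_rel (p : ℕ) (hp : 1 < p) (R0 : Subalgebra A (MvPolynomial (Fin m) A))
    (κ0 : ℕ) (hκ0 : 0 < κ0) (a : Fin m → Fin m × Fin κ0 → A)
    (hy : ∀ i, X i ^ p ^ κ0 - ∑ q, C (a i q) * X q.1 ^ p ^ (q.2 : ℕ) ∈ R0) :
    Module.Finite R0 (MvPolynomial (Fin m) A) := by
  classical
  let e : Fin m × Fin κ0 ≃ Fin (m * κ0) := finProdFinEquiv
  let t : Fin (m * κ0) → MvPolynomial (Fin m) A := fun n =>
    X (e.symm n).1 ^ p ^ ((e.symm n).2 : ℕ)
  let aa : Fin (m * κ0) → R0 := fun n =>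
    if ((e.symm n).2 : ℕ) + 1 < κ0 then 0 else ⟨_, hy (e.symm n).1⟩
  let FF : Fin (m * κ0) → Fin (m * κ0) → R0 := fun n s =>
    if h : ((e.symm n).2 : ℕ) + 1 < κ0 then (if s = e ((e.symm n).1, ⟨_, h⟩) then 1 else 0)
    else ⟨C (a (e.symm n).1 (e.symm s)), R0.algebraMap_mem _⟩
  have hrel : ∀ n, t n ^ p = algebraMap R0 (MvPolynomial (Fin m) A) (aa n) +
      ∑ s, algebraMap R0 (MvPolynomial (Fin m) A) (FF n s) * t s := by
    intro n
    have h1 : t n ^ p = X (e.symm n).1 ^ p ^ (((e.symm n).2 : ℕ) + 1) := by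
      change (X (e.symm n).1 ^ p ^ ((e.symm n).2 : ℕ)) ^ p = _
      rw [← pow_mul, ← pow_succ]
    by_cases h : ((e.symm n).2 : ℕ) + 1 < κ0
    · simp only [aa, FF, dif_pos h, if_pos h, map_zero, zero_add]
      rw [Finset.sum_eq_single (e ((e.symm n).1, ⟨_, h⟩))]
      · rw [if_pos rfl, map_one, one_mul, h1]
        change _ = X (e.symm (e ((e.symm n).1, ⟨_, h⟩))).1 ^
          p ^ ((e.symm (e ((e.symm n).1, ⟨_, h⟩))).2 : ℕ)
        rw [e.symm_apply_apply]
      · intro s _ hs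
        rw [if_neg hs, map_zero, zero_mul]
      · intro h; exact absurd (Finset.mem_univ _) h
    · have h2 : ((e.symm n).2 : ℕ) + 1 = κ0 := by
        have := (e.symm n).2.2
        omega
      simp only [aa, FF, dif_neg h, if_neg h]
      rw [h1, h2]
      change _ = (X (e.symm n).1 ^ p ^ κ0 - ∑ q, C (a (e.symm n).1 q) * X q.1 ^ p ^ (q.2 : ℕ)) +
        ∑ s, C (a (e.symm n).1 (e.symm s)) * (X (e.symm s).1 ^ p ^ ((e.symm s).2 : ℕ))
      rw [Fintype.sum_equiv e.symm (fun s => C (a (e.symm n).1 (e.symm s)) *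
        (X (e.symm s).1 ^ p ^ ((e.symm s).2 : ℕ)))
        (fun q => C (a (e.symm n).1 q) * X q.1 ^ p ^ (q.2 : ℕ)) (fun _ => rfl)]
      ring
  refine ⟨(Set.finite_range fun (α : Fin (m * κ0) → Fin p) => red t α).toFinset, ?_⟩
  rw [eq_top_iff]
  intro f _
  rw [← MvPolynomial.support_sum_monomial_coeff f]
  refine Submodule.sum_mem _ fun s _ => ?_
  have h1 : (monomial s (coeff s f) : MvPolynomial (Fin m) A) =
      (⟨C (coeff s f), R0.algebraMap_mem _⟩ : R0) • ∏ n, t n ^
        (if ((e.symm n).2 : ℕ) = 0 then s (e.symm n).1 else 0) := by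
    rw [Algebra.smul_def]
    change _ = C (coeff s f) * _
    rw [MvPolynomial.monomial_eq, Finsupp.prod_fintype _ _ (fun i => pow_zero _)]
    congr 1
    rw [Fintype.prod_equiv e.symm (fun n => t n ^
        (if ((e.symm n).2 : ℕ) = 0 then s (e.symm n).1 else 0))
        (fun q => (X q.1 ^ p ^ (q.2 : ℕ)) ^ (if (q.2 : ℕ) = 0 then s q.1 else 0)) (fun _ => rfl),
      Fintype.prod_prod_type]
    refine Finset.prod_congr rfl fun i _ => ?_
    rw [Finset.prod_eq_single (⟨0, hκ0⟩ : Fin κ0)]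
    · simp
    · intro κ _ hκ
      have h3 : (κ : ℕ) ≠ 0 := fun h => hκ (Fin.ext h)
      simp [h3]
    · intro h; exact absurd (Finset.mem_univ _) h
  rw [h1]
  refine Submodule.smul_mem _ _ ?_
  obtain ⟨c, hc⟩ := sp_monomial (φ := algebraMap R0 (MvPolynomial (Fin m) A)) (t := t) hp aa FF
    hrel _ (fun n => if ((e.symm n).2 : ℕ) = 0 then s (e.symm n).1 else 0) rfl
  rw [hc]
  refine Submodule.sum_mem _ fun α _ => ?_
  rw [← Algebra.smul_def]
  refine Submodule.smul_mem _ _ (Submodule.subset_span ?_)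
  rw [Set.Finite.coe_toFinset]
  exact ⟨α, rfl⟩

end int

end Pool.Agent.Helper819.LU
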