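import Pool.Agent.Helper819.LU.Main
import Pool.Agent.W558.WD.Plane

/-! Ascent of local uniformization. -/

set_option autoImplicit false
set_option linter.unusedSectionVars false

universe u

open MvPolynomial Pool.Agent.Helper819.TR Pool.Agent.Helper819.TR.RD Pool.Agent.W558

open scoped TensorProduct

namespace Pool.Agent.Helper819.LU

/-- The two forms of regularity at the centre. -/
lemma unif_iff {A K : Type u} [CommRing A] [Field K] [Algebra A K] (V : ValuationSubring K)
    (B : Subalgebra A K) (hBV : ∀ b ∈ B, b ∈ V) :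
    (∃ P : Ideal B, ∃ (_ : P.IsPrime), (∀ b : B, b ∈ P ↔ V.valuation (b : K) < 1) ∧
      IsRegularLocalRing (Localization.AtPrime P)) ↔ IsRegularLocalRing (cr V B.toSubring) := by
  have h1 : B.val.toRingHom.range = B.toSubring := by
    ext z
    constructor
    · rintro ⟨b, rfl⟩; exact b.2
    · intro hz; exact ⟨⟨z, hz⟩, rfl⟩
  constructor
  · rintro ⟨P, hP, hPm, hreg⟩
    have h2 := (reg_iff B.val.toRingHom Subtype.val_injective V (fun b => hBV b b.2) P hPm).1 hreg
    rwa [h1] at h2
  · intro h
    obtain ⟨P, hP, hPm⟩ := exists_centre B.val.toRingHom V (fun b => hBV b b.2)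
    refine ⟨P, hP, hPm, ?_⟩
    refine (reg_iff B.val.toRingHom Subtype.val_injective V (fun b => hBV b b.2) P hPm).2 ?_
    rwa [h1]

/-- The uniformization of all valuation rings over `A`, with given elements. -/
def AllUnif (A K : Type u) [CommRing A] [Field K] [Algebra A K] : Prop :=
  ∀ V : ValuationSubring K, (∀ a, algebraMap A K a ∈ V) → ∀ T : Finset K,
    (∀ t ∈ T, t ∈ V) → ∃ B : Subalgebra A K, (∀ t ∈ T, t ∈ B) ∧ Unif V B

theorem lu_final {A K D F R : Type u} [CommRing A] [IsDomain A] [IsNoetherianRing A] [Field K]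
    [Algebra A K] [IsFractionRing A K] [CommRing D] [Bialgebra K D] [Algebra A D]
    [IsScalarTower A K D] (p : ℕ) [hp : Fact p.Prime] [CharP K p] {m : ℕ} (v : Fin m → D)
    (hv : ∀ i, Coalgebra.comul (R := K) (v i) = v i ⊗ₜ[K] 1 + 1 ⊗ₜ[K] v i)
    (hint : ∀ i, IsIntegral A (v i)) (hLU : AllUnif A K)
    {S : Subalgebra A (MvPolynomial (Fin m) A)} (hS : S = invT A ({v} : Set (Fin m → D)))
    (Q : Ideal S) [Q.IsPrime] [CommRing R] [Algebra S R] [IsLocalization.AtPrime R Q]
    [Field F] [Algebra R F] [IsFractionRing R F] (V : ValuationSubring F)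
    (hV : ∀ r, algebraMap R F r ∈ V)
    (hVm : ∀ r : R, r ∈ nonunits R ↔ V.valuation (algebraMap R F r) < 1) :
    ∃ B : Subalgebra R F, Unif V B := by
  subst hS
  let _ : Algebra (invT A ({v} : Set (Fin m → D))) F :=
    ((algebraMap R F).comp (algebraMap _ R)).toAlgebra
  have htow : IsScalarTower (invT A ({v} : Set (Fin m → D))) R F :=
    IsScalarTower.of_algebraMap_eq' rfl
  have hinj : Function.Injective (algebraMap (invT A ({v} : Set (Fin m → D))) R) :=
    IsLocalization.injective R Q.primeCompl_le_nonZeroDivisors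
  have hntR : Nontrivial R := (algebraMap R F).domain_nontrivial
  have hfr : IsFractionRing (invT A ({v} : Set (Fin m → D))) F := by
    have hf1 : FaithfulSMul (invT A ({v} : Set (Fin m → D))) F := by
      rw [faithfulSMul_iff_algebraMap_injective]
      exact (IsFractionRing.injective R F).comp hinj
    refine IsFractionRing.of_field _ F fun z => ?_
    obtain ⟨a, b, hb, rfl⟩ := IsFractionRing.div_surjective (A := R) z
    obtain ⟨⟨a1, c1⟩, h1⟩ := IsLocalization.surj Q.primeCompl a
    obtain ⟨⟨b1, d1⟩, h2⟩ := IsLocalization.surj Q.primeCompl b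
    have hc1 : algebraMap R F (algebraMap _ R (c1 : invT A ({v} : Set (Fin m → D)))) ≠ 0 := by
      rw [map_ne_zero_iff _ (IsFractionRing.injective R F)]
      exact (IsLocalization.map_units R c1).ne_zero
    have hd1 : algebraMap R F (algebraMap _ R (d1 : invT A ({v} : Set (Fin m → D)))) ≠ 0 := by
      rw [map_ne_zero_iff _ (IsFractionRing.injective R F)]
      exact (IsLocalization.map_units R d1).ne_zero
    refine ⟨a1 * d1, b1 * c1, ?_⟩
    change algebraMap R F a / algebraMap R F b = algebraMap R F (algebraMap _ R (a1 * d1)) /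
      algebraMap R F (algebraMap _ R (b1 * c1))
    simp only at h1 h2
    rw [map_mul (algebraMap _ R), map_mul (algebraMap _ R), ← h1, ← h2, map_mul, map_mul, map_mul,
      map_mul]
    by_cases hb0 : algebraMap R F b = 0
    · rw [hb0]; simp
    · field_simp
  obtain ⟨B, hB⟩ := lu_core (K := K) p v hv hint hLU V (fun s => hV _)
  obtain ⟨B', -, hB'⟩ := unif_loc Q V hV (fun s hs => by
    have h1 : IsUnit (algebraMap _ R s) := IsLocalization.map_units R (⟨s, hs⟩ : Q.primeCompl)
    have h2 : ¬ V.valuation (algebraMap R F (algebraMap _ R s)) < 1 := by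
      rw [← hVm, mem_nonunits_iff, not_not]
      exact h1
    rw [not_lt] at h2
    exact le_antisymm ((V.valuation_le_one_iff _).2 (hV _)) h2) B hB
  exact ⟨B', hB'⟩

/-- Local uniformization of the local rings of the modifications. -/
theorem allUnif_of_loc {A K : Type u} [CommRing A] [IsDomain A] [Field K] [Algebra A K]
    [IsFractionRing A K]
    (h : ∀ C : Subalgebra A K, C.FG → ∀ (P : Ideal C) [P.IsPrime]
      [Algebra (Localization.AtPrime P) K] [IsFractionRing (Localization.AtPrime P) K]
      (V : ValuationSubring K),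
      (∀ r, algebraMap (Localization.AtPrime P) K r ∈ V) →
      (∀ r : Localization.AtPrime P, r ∈ nonunits (Localization.AtPrime P) ↔
        V.valuation (algebraMap (Localization.AtPrime P) K r) < 1) →
      ∃ B : Subalgebra (Localization.AtPrime P) K, Unif V B) : AllUnif A K := by
  classical
  intro V hV T hT
  let C : Subalgebra A K := Algebra.adjoin A (T : Set K)
  have hCV : ∀ c ∈ C, c ∈ V := adjoin_mem V hV _ hT
  obtain ⟨P, hP, hPm⟩ := exists_centre C.val.toRingHom V (fun b => hCV b b.2)
  let R := Localization.AtPrime P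
  have hne : ∀ s : C, s ∉ P → V.valuation (s : K) = 1 := by
    intro s hs
    rw [hPm, not_lt] at hs
    exact le_antisymm ((V.valuation_le_one_iff _).2 (hCV s s.2)) hs
  let g : R →+* K := IsLocalization.lift (M := P.primeCompl) (g := (algebraMap C K))
    (fun b => IsUnit.mk0 _ (ne_zero_of_val (hne b b.2)))
  let _ : Algebra R K := g.toAlgebra
  have htow : IsScalarTower C R K := IsScalarTower.of_algebraMap_eq' (by
    ext c
    exact (IsLocalization.lift_eq _ c).symm)
  have hfrC : IsFractionRing C K := by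
    have h1 : IsScalarTower A C K := inferInstance
    refine IsFractionRing.of_field C K fun z => ?_
    obtain ⟨a, b, hb, rfl⟩ := IsFractionRing.div_surjective (A := A) z
    exact ⟨algebraMap A C a, algebraMap A C b, rfl⟩
  have hfr : IsFractionRing R K :=
    IsFractionRing.isFractionRing_of_isDomain_of_isLocalization P.primeCompl R K
  have hmk : ∀ (a : C) (s : P.primeCompl), algebraMap R K (IsLocalization.mk' R a s) =
      (a : K) / (s : C) := by
    intro a s
    change g _ = _
    rw [IsLocalization.lift_mk'_spec]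
    change (a : K) = ((s : C) : K) * ((a : K) / (s : C))
    rw [mul_div_cancel₀]
    exact ne_zero_of_val (hne s s.2)
  have hval : ∀ (a : C) (s : P.primeCompl), V.valuation (algebraMap R K
      (IsLocalization.mk' R a s)) = V.valuation (a : K) := by
    intro a s
    rw [hmk, map_div₀, hne s s.2, div_one]
  obtain ⟨B, hB⟩ := h C ⟨T, rfl⟩ P V (by
    intro r
    obtain ⟨a, s, rfl⟩ := IsLocalization.exists_mk'_eq P.primeCompl r
    rw [← V.valuation_le_one_iff, hval]
    exact (V.valuation_le_one_iff _).2 (hCV a a.2)) (by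
    intro r
    obtain ⟨a, s, rfl⟩ := IsLocalization.exists_mk'_eq P.primeCompl r
    rw [hval, ← IsLocalRing.mem_maximalIdeal, IsLocalization.AtPrime.mk'_mem_maximal_iff R P a s]
    exact hPm a)
  exact unif_of_loc (A := A) P V (fun s hs => hne s hs) T (by
    ext z
    constructor
    · intro hz; exact ⟨⟨z, hz⟩, rfl⟩
    · rintro ⟨c, rfl⟩; exact c.2) B hB

lemma adjoin_sub (k A K : Type u) [Field k] [CommRing A] [Field K] [Algebra k A] [Algebra k K]
    [Algebra A K] [IsScalarTower k A K] (G : Set K) :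
    ∀ z ∈ Algebra.adjoin k G, z ∈ Algebra.adjoin A G := by
  intro z hz
  induction hz using Algebra.adjoin_induction with
  | mem x hx => exact Algebra.subset_adjoin hx
  | algebraMap r =>
    rw [IsScalarTower.algebraMap_apply k A K]
    exact Subalgebra.algebraMap_mem _ _
  | add x y _ _ hx hy => exact Subalgebra.add_mem _ hx hy
  | mul x y _ _ hx hy => exact Subalgebra.mul_mem _ hx hy

/-- Surfaces over perfect fields. -/
theorem allUnif_of_hasMon {k A K : Type u} [Field k] [CommRing A] [IsDomain A] [Field K]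
    [Algebra k A] [Algebra k K] [Algebra A K] [IsScalarTower k A K] [IsFractionRing A K]
    [Algebra.FiniteType k A] (hM : HasMon k K ⊤) : AllUnif A K := by
  classical
  intro V hV T hT
  obtain ⟨n, y, hy⟩ := range_eq_adjoin k A K
  let T0 := T.erase 0
  let t : Fin T0.card → Kˣ := fun i => Units.mk0 ((T0.equivFin.symm i : T0) : K)
    (Finset.mem_erase.1 (T0.equivFin.symm i).2).1
  have ht : ∀ z ∈ T, z = 0 ∨ ∃ i, (t i : K) = z := by
    intro z hz
    by_cases h0 : z = 0
    · exact Or.inl h0
    · right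
      refine ⟨T0.equivFin ⟨z, Finset.mem_erase.2 ⟨h0, hz⟩⟩, ?_⟩
      change ((T0.equivFin.symm _ : T0) : K) = z
      rw [Equiv.symm_apply_apply]
  let R0 : Subalgebra k K := Algebra.adjoin k (Set.range fun i => ((Fin.append y t i : Kˣ) : K))
  have hyR : ∀ i, (y i : K) ∈ R0 := fun i => Algebra.subset_adjoin ⟨Fin.castAdd _ i, by
    change ((Fin.append y t (Fin.castAdd _ i) : Kˣ) : K) = _
    rw [Fin.append_left]⟩
  have htR : ∀ i, (t i : K) ∈ R0 := fun i => Algebra.subset_adjoin ⟨Fin.natAdd _ i, by
    change ((Fin.append y t (Fin.natAdd _ i) : Kˣ) : K) = _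
    rw [Fin.append_right]⟩
  have hAR : ∀ a : A, algebraMap A K a ∈ R0 := by
    intro a
    have h1 : algebraMap A K a ∈ (IsScalarTower.toAlgHom k A K).range := ⟨a, rfl⟩
    rw [hy] at h1
    refine (Algebra.adjoin_le ?_) h1
    rintro _ ⟨i, rfl⟩
    exact hyR i
  have hR0V : ∀ z ∈ R0, z ∈ V := by
    refine adjoin_mem V (fun c => ?_) _ ?_
    · rw [IsScalarTower.algebraMap_apply k A K]; exact hV _
    · rintro _ ⟨i, rfl⟩
      refine Fin.addCases (fun i => ?_) (fun i => ?_) i
      · change ((Fin.append y t (Fin.castAdd _ i) : Kˣ) : K) ∈ V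
        rw [Fin.append_left]
        have h1 : (y i : K) ∈ (IsScalarTower.toAlgHom k A K).range := by
          rw [hy]; exact Algebra.subset_adjoin ⟨i, rfl⟩
        obtain ⟨a, ha⟩ := h1
        rw [← ha]
        exact hV a
      · change ((Fin.append y t (Fin.natAdd _ i) : Kˣ) : K) ∈ V
        rw [Fin.append_right]
        exact hT _ (Finset.mem_of_mem_erase (T0.equivFin.symm i).2)
  have hfr : ∀ x : K, ∃ a ∈ R0, ∃ b ∈ R0, b ≠ 0 ∧ x = a * b⁻¹ := by
    intro x
    obtain ⟨a, b, hb, rfl⟩ := IsFractionRing.div_surjective (A := A) x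
    refine ⟨_, hAR a, _, hAR b, ?_, ?_⟩
    · exact (FaithfulSMul.algebraMap_eq_zero_iff A K).not.2 (nonZeroDivisors.ne_zero hb)
    · rw [div_eq_mul_inv]
  obtain ⟨T', I, i1, M, -⟩ := exists_model hM R0 (n + T0.card) (Fin.append y t)
    (fun _ => trivial) rfl hfr 0 Fin.elim0 (fun i => i.elim0)
  obtain ⟨s, hs⟩ := M.cv V hR0V
  have hsm : Algebra.Smooth k (M.A s) := M.sm s
  have hft : Algebra.FiniteType k (M.A s) := inferInstance
  obtain ⟨G, hG⟩ := (Subalgebra.fg_iff_finiteType _).2 hft
  have hAM : ∀ a : A, algebraMap A K a ∈ M.A s := fun a => M.base s (hAR a)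
  have heq : (Algebra.adjoin A (G : Set K)).toSubring = (M.A s).toSubring := by
    ext z
    constructor
    · intro hz
      have hz' : z ∈ Algebra.adjoin A (G : Set K) := hz
      change z ∈ M.A s
      induction hz' using Algebra.adjoin_induction with
      | mem x hx => rw [← hG]; exact Algebra.subset_adjoin hx
      | algebraMap r => exact hAM r
      | add x y _ _ hx hy => exact Subalgebra.add_mem _ (hx ‹_›) (hy ‹_›)
      | mul x y _ _ hx hy => exact Subalgebra.mul_mem _ (hx ‹_›) (hy ‹_›)
    · intro hz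
      have hz' : z ∈ M.A s := hz
      change z ∈ Algebra.adjoin A (G : Set K)
      rw [← hG] at hz'
      exact adjoin_sub k A K G z hz'
  have hBV : ∀ b ∈ Algebra.adjoin A (G : Set K), b ∈ V := by
    intro b hb
    have h1 : b ∈ (Algebra.adjoin A (G : Set K)).toSubring := hb
    rw [heq] at h1
    exact hs b h1
  refine ⟨Algebra.adjoin A (G : Set K), ?_, ⟨G, rfl⟩, hBV, ?_⟩
  · intro z hz
    change z ∈ (Algebra.adjoin A (G : Set K)).toSubring
    rw [heq]
    rcases ht z hz with rfl | ⟨i, rfl⟩
    · exact Subring.zero_mem _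
    · exact M.base s (htR i)
  · rw [heq]
    obtain ⟨q, hq, hqm⟩ := exists_centre (M.A s).val.toRingHom V (fun b => hs b b.2)
    have hk : IsRegularRing k := inferInstance
    have h1 : (⊥ : Ideal k) = q.under k := by
      rcases Ideal.eq_bot_or_top (q.under k) with h | h
      · exact h.symm
      · exact absurd h (Ideal.IsPrime.under k q).ne_top
    have h2 := regular_of_smooth (B := k) q ⊥ h1
      (IsRegularRing.isRegularLocalRing_localization (R := k) ⊥)
    have h3 := (reg_iff (M.A s).val.toRingHom Subtype.val_injective V (fun b => hs b b.2) q hqm).1 h2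
    have h4 : (M.A s).val.toRingHom.range = (M.A s).toSubring := by
      ext z
      constructor
      · rintro ⟨b, rfl⟩; exact b.2
      · intro hz; exact ⟨⟨z, hz⟩, rfl⟩
    rwa [h4] at h3

/-- Local uniformization of a local domain. -/
def Adm (R : Type u) [CommRing R] : Prop :=
  ∀ (F : Type u) [Field F] [Algebra R F] [IsFractionRing R F] (V : ValuationSubring F),
    (∀ r : R, algebraMap R F r ∈ V) →
    (∀ r : R, r ∈ nonunits R ↔ V.valuation (algebraMap R F r) < 1) →
    ∃ B : Subalgebra R F, B.FG ∧ (∀ b : B, (b : F) ∈ V) ∧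
      ∃ P : Ideal B, ∃ (_ : P.IsPrime),
        (∀ b : B, b ∈ P ↔ V.valuation (b : F) < 1) ∧
        IsRegularLocalRing (Localization.AtPrime P)

theorem allUnif_of_adm {A K : Type u} [CommRing A] [IsDomain A] [Field K] [Algebra A K]
    [IsFractionRing A K] (hA : ∀ C : Subalgebra A K, C.FG → ∀ (P : Ideal C) [P.IsPrime],
      Adm (Localization.AtPrime P)) : AllUnif A K := by
  refine allUnif_of_loc fun C hC P _ _ _ V hV hVm => ?_
  obtain ⟨B, h1, h2, h3⟩ := hA C hC P K V hV hVm
  have h2' : ∀ b ∈ B, b ∈ V := fun b hb => h2 ⟨b, hb⟩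
  exact ⟨B, h1, h2', (unif_iff V B h2').1 h3⟩

theorem adm_final {A K D R : Type u} [CommRing A] [IsDomain A] [IsNoetherianRing A] [Field K]
    [Algebra A K] [IsFractionRing A K] [CommRing D] [Bialgebra K D] [Algebra A D]
    [IsScalarTower A K D] (p : ℕ) [hp : Fact p.Prime] [CharP K p] {m : ℕ} (v : Fin m → D)
    (hv : ∀ i, Coalgebra.comul (R := K) (v i) = v i ⊗ₜ[K] 1 + 1 ⊗ₜ[K] v i)
    (hint : ∀ i, IsIntegral A (v i)) (hLU : AllUnif A K)
    {S : Subalgebra A (MvPolynomial (Fin m) A)} (hS : S = invT A ({v} : Set (Fin m → D)))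
    (Q : Ideal S) [Q.IsPrime] [CommRing R] [Algebra S R] [IsLocalization.AtPrime R Q] :
    Adm R := by
  intro F _ _ _ V hV hVm
  obtain ⟨B, h1, h2, h3⟩ := lu_final (K := K) p v hv hint hLU hS Q V hV hVm
  exact ⟨B, h1, fun b => h2 b b.2, (unif_iff V B h2).2 h3⟩

/-- Surfaces with a smooth projective model. -/
theorem allUnif_surface (p : ℕ) [Fact p.Prime] {k A K : Type u} [Field k] [PerfectField k]
    [CharP k p] [CommRing A] [IsDomain A] [Field K]
    [Algebra k A] [Algebra k K] [Algebra A K] [IsScalarTower k A K] [IsFractionRing A K]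
    [Algebra.FiniteType k A] (h2 : Algebra.trdeg k K = 2)
    (hw : (∃ u : Fin 2 → K, IntermediateField.adjoin k (Set.range u) = ⊤) ∨ HasModel k K) :
    AllUnif A K := by
  have hE' : (Algebra.trdeg k K = 2 ∧ HasModel k K) ∨ HasLogModels k K := by
    rcases hw with ⟨w, hw⟩ | h
    · exact Or.inl ⟨h2, hasModel_plane h2 (fun j => (ind_of_top h2 w hw).ne_zero j) hw⟩
    · exact Or.inl ⟨h2, h⟩
  exact allUnif_of_hasMon (k := k) (hasMon_field hE')

end Pool.Agent.Helper819.LU
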