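import Pool.Agent.Helper819.LU.Reg
import Pool.Agent.W418.LU2.Pair

/-! Regular systems of parameters in smooth algebras. -/

set_option autoImplicit false

namespace Pool.Agent.Helper819.LU

open IsLocalRing Pool.Agent.W418.LU2

universe u

/-- A regular system of parameters of the base is part of one of a smooth algebra. -/
theorem rsp_ext {O A : Type u} [CommRing O] [IsLocalRing O] [IsNoetherianRing O]
    [CommRing A] [Algebra O A] [Algebra.Smooth O A] (Q : Ideal A) [Q.IsPrime]
    (hQ : maximalIdeal O = Q.under O) {d : ℕ} (z : Fin d → O)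
    (hz : Ideal.span (Set.range z) = maximalIdeal O) (hd : ringKrullDim O = d) :
    Ind (fun i => algebraMap A (Localization.AtPrime Q) (algebraMap O A (z i))) := by
  classical
  have hA : IsNoetherianRing A := Algebra.FiniteType.isNoetherianRing O A
  have hover : Q.LiesOver (maximalIdeal O) := ⟨hQ⟩
  let J := (maximalIdeal O).map (algebraMap O A)
  have hJQ : J ≤ Q := by
    rw [Ideal.map_le_iff_le_comap]
    exact hQ.le
  let Qb : Ideal (A ⧸ J) := Q.map (Ideal.Quotient.mk J)
  have hQb : Qb.IsPrime := by
    refine Ideal.map_isPrime_of_surjective Ideal.Quotient.mk_surjective ?_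
    rw [Ideal.mk_ker]
    exact hJQ
  have hQbc : Qb.comap (Ideal.Quotient.mk J) = Q := by
    rw [Ideal.comap_map_of_surjective _ Ideal.Quotient.mk_surjective, sup_eq_left]
    intro x hx
    apply hJQ
    rw [Ideal.mem_comap, Ideal.mem_bot, Ideal.Quotient.eq_zero_iff_mem] at hx
    exact hx
  have hsm : Algebra.Smooth (O ⧸ maximalIdeal O) (A ⧸ J) :=
    Algebra.Smooth.of_equiv (Algebra.TensorProduct.quotIdealMapEquivQuotTensor A
      (maximalIdeal O)).symm
  let _ : Field (O ⧸ maximalIdeal O) := Ideal.Quotient.field _
  have hk : IsRegularRing (O ⧸ maximalIdeal O) := inferInstance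
  have h1 : (⊥ : Ideal (O ⧸ maximalIdeal O)) = Qb.under (O ⧸ maximalIdeal O) := by
    rcases Ideal.eq_bot_or_top (Qb.under (O ⧸ maximalIdeal O)) with h | h
    · exact h.symm
    · exact absurd h (Ideal.IsPrime.under _ Qb).ne_top
  have hreg : IsRegularLocalRing (Localization.AtPrime Qb) :=
    regular_of_smooth (B := O ⧸ maximalIdeal O) Qb ⊥ h1
      (IsRegularRing.isRegularLocalRing_localization (R := O ⧸ maximalIdeal O) ⊥)
  obtain ⟨G, hG, hcard, hgen⟩ := exists_local_gens Qb
  choose σ hσ using Ideal.Quotient.mk_surjective (I := J)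
  let eG := G.equivFin
  let w : Fin G.card → A := fun g => σ (eG.symm g).1
  have hw : ∀ g, w g ∈ Q := by
    intro g
    rw [← hQbc, Ideal.mem_comap, hσ]
    exact hG _ (eG.symm g).2
  let P := Localization.AtPrime Q
  let θ : Fin d ⊕ Fin G.card → P := Sum.elim (fun i => algebraMap A P (algebraMap O A (z i)))
    (fun g => algebraMap A P (w g))
  have hflat : Module.Flat O A := inferInstance
  have hht := Ideal.height_eq_height_add_of_liesOver_of_hasGoingDown (maximalIdeal O) Q
  have hspan : Ideal.span (Set.range θ) = maximalIdeal P := by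
    have hJ : J.map (algebraMap A P) ≤ Ideal.span (Set.range θ) := by
      rw [Ideal.map_le_iff_le_comap, Ideal.map_le_iff_le_comap, ← hz, Ideal.span_le]
      rintro _ ⟨i, rfl⟩
      exact Ideal.subset_span ⟨Sum.inl i, rfl⟩
    apply le_antisymm
    · rw [Ideal.span_le]
      rintro _ ⟨i | g, rfl⟩
      · rw [← Localization.AtPrime.map_eq_maximalIdeal]
        refine Ideal.mem_map_of_mem _ (hJQ (Ideal.mem_map_of_mem _ ?_))
        rw [← hz]
        exact Ideal.subset_span ⟨i, rfl⟩
      · rw [← Localization.AtPrime.map_eq_maximalIdeal]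
        exact Ideal.mem_map_of_mem _ (hw g)
    · rw [← Localization.AtPrime.map_eq_maximalIdeal, Ideal.map_le_iff_le_comap]
      intro y hy
      have hyb : Ideal.Quotient.mk J y ∈ Qb := Ideal.mem_map_of_mem _ hy
      obtain ⟨cb, hcb, hcy⟩ := hgen _ hyb
      obtain ⟨c, rfl⟩ := Ideal.Quotient.mk_surjective cb
      have hc : c ∉ Q := by
        rw [← hQbc]
        exact hcb
      have h2 : c * y ∈ Ideal.span (Set.range w) ⊔ J := by
        have h3 : Ideal.span (G : Set (A ⧸ J)) =
            (Ideal.span (Set.range w)).map (Ideal.Quotient.mk J) := by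
          rw [Ideal.map_span, ← Set.range_comp]
          congr 1
          ext t
          constructor
          · intro ht
            refine ⟨eG ⟨t, ht⟩, ?_⟩
            change Ideal.Quotient.mk J (σ (eG.symm (eG ⟨t, ht⟩)).1) = t
            rw [Equiv.symm_apply_apply]
            exact hσ t
          · rintro ⟨g, rfl⟩
            change Ideal.Quotient.mk J (σ (eG.symm g).1) ∈ _
            rw [hσ]
            exact (eG.symm g).2
        rw [h3, ← map_mul, ← Ideal.mem_comap, Ideal.comap_map_of_surjective _
          Ideal.Quotient.mk_surjective] at hcy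
        have h6 : Ideal.comap (Ideal.Quotient.mk J) ⊥ ≤ J := by
          intro x hx
          rw [Ideal.mem_comap, Ideal.mem_bot, Ideal.Quotient.eq_zero_iff_mem] at hx
          exact hx
        exact (sup_le_sup_left h6 (Ideal.span (Set.range w))) hcy
      have h4 : algebraMap A P (c * y) ∈ Ideal.span (Set.range θ) := by
        have h5 : Ideal.span (Set.range w) ⊔ J ≤
            (Ideal.span (Set.range θ)).comap (algebraMap A P) := by
          refine sup_le ?_ (Ideal.map_le_iff_le_comap.1 hJ)
          rw [Ideal.span_le]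
          rintro _ ⟨g, rfl⟩
          exact Ideal.subset_span ⟨Sum.inr g, rfl⟩
        exact h5 h2
      rw [map_mul] at h4
      have hu : IsUnit (algebraMap A P c) := IsLocalization.map_units P (⟨c, hc⟩ : Q.primeCompl)
      exact (Ideal.unit_mul_mem_iff_mem _ hu).1 h4
  have hdim : ((Fintype.card (Fin d ⊕ Fin G.card) : ℕ) : WithBot ℕ∞) ≤ ringKrullDim P := by
    rw [IsLocalization.AtPrime.ringKrullDim_eq_height Q P, hht, Fintype.card_sum, Fintype.card_fin,
      Fintype.card_fin]
    have h2 : (maximalIdeal O).height = (d : ℕ∞) := by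
      rw [← maximalIdeal_height_eq_ringKrullDim] at hd
      exact_mod_cast hd
    rw [h2]
    have h3 : ((d + G.card : ℕ) : ℕ∞) ≤ (d : ℕ∞) + Qb.height := by
      push_cast
      gcongr
    exact_mod_cast h3
  have hnoP : IsNoetherianRing P := IsLocalization.isNoetherianRing Q.primeCompl _ inferInstance
  have hregP : IsRegularLocalRing P := by
    refine IsRegularLocalRing.of_spanFinrank_maximalIdeal_le P (le_trans ?_ hdim)
    have h3 : (maximalIdeal P).spanFinrank ≤ Fintype.card (Fin d ⊕ Fin G.card) := by
      rw [← hspan]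
      refine (Submodule.spanFinrank_span_le_ncard_of_finite (Set.finite_range θ)).trans ?_
      rw [← Set.image_univ]
      refine (Set.ncard_image_le Set.finite_univ).trans ?_
      rw [Set.ncard_univ, Nat.card_eq_fintype_card]
    exact_mod_cast h3
  have hind := ind_of_span hspan hdim
  exact hind.comp Sum.inl Sum.inl_injective

end Pool.Agent.Helper819.LU
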