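import Pool.Agent.Helper819.LU.Main
import Pool.Agent.Helper819.LU.ChartK
import Pool.Agent.Helper819.LU.Rsp

/-! Log uniformization: preparations. -/

set_option autoImplicit false
set_option linter.unusedSectionVars false

universe u

open MvPolynomial Pool.Agent.Helper819.TR Pool.Agent.Helper819.TR.RD Pool.Agent.W418.LU2 IsLocalRing

open scoped TensorProduct

namespace Pool.Agent.Helper819.LU

section basics

variable {F : Type u} [Field F]

/-- The chart of a blowing-up. -/
def bch (A : Subring F) (I : Ideal A) (f : A) : Subring F :=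
  Subring.closure ((A : Set F) ∪ {z | ∃ a ∈ I, z = (a : F) / (f : F)})

lemma le_cr (V : ValuationSubring F) (B : Subring F) : B ≤ cr V B := fun b hb =>
  ⟨b, hb, 1, B.one_mem, map_one _, by rw [div_one]⟩

lemma cr_le {V : ValuationSubring F} {B : Subring F} (hB : B ≤ V.toSubring) :
    cr V B ≤ V.toSubring := by
  rintro _ ⟨a, ha, b, hb, h, rfl⟩
  change a / b ∈ V
  rw [← V.valuation_le_one_iff, map_div₀, h, div_one]
  exact (V.valuation_le_one_iff _).2 (hB ha)

lemma inv_mem_cr {V : ValuationSubring F} {B : Subring F} {z : F} (hz : z ∈ cr V B)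
    (h : V.valuation z = 1) : z⁻¹ ∈ cr V B := by
  obtain ⟨a, ha, b, hb, h1, rfl⟩ := hz
  rw [map_div₀, h1, div_one] at h
  exact ⟨b, hb, a, ha, h, by rw [inv_div]⟩

lemma div_mem_cr {V : ValuationSubring F} {B : Subring F} {a b : F} (ha : a ∈ B) (hb : b ∈ B)
    (h : V.valuation b = 1) : a / b ∈ cr V B := ⟨a, ha, b, hb, h, rfl⟩

/-- The maximal ideal of the local ring at the centre. -/
lemma mem_max_cr {V : ValuationSubring F} {B : Subring F} (hB : B ≤ V.toSubring)
    [IsLocalRing (cr V B)] (z : cr V B) :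
    z ∈ maximalIdeal (cr V B) ↔ V.valuation (z : F) < 1 := by
  have hle : V.valuation (z : F) ≤ 1 := (V.valuation_le_one_iff _).2 (cr_le hB z.2)
  rw [mem_maximalIdeal, mem_nonunits_iff]
  constructor
  · intro h
    refine lt_of_le_of_ne hle fun h1 => h ?_
    refine isUnit_iff_exists_inv.2 ⟨⟨_, inv_mem_cr z.2 h1⟩, Subtype.ext ?_⟩
    exact mul_inv_cancel₀ (ne_zero_of_val h1)
  · intro h hu
    obtain ⟨w, hw⟩ := isUnit_iff_exists_inv.1 hu
    have h1 := congrArg (fun t : cr V B => V.valuation (t : F)) hw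
    simp only [Subring.coe_mul, Subring.coe_one, map_mul, map_one] at h1
    have h2 : V.valuation (w : F) ≤ 1 := (V.valuation_le_one_iff _).2 (cr_le hB w.2)
    have h3 : V.valuation (z : F) * V.valuation (w : F) < 1 :=
      lt_of_le_of_lt (mul_le_of_le_one_right' h2) h
    exact absurd h1 h3.ne

/-- A generator of maximal value. -/
lemma exists_top {A : Subring F} [IsNoetherianRing A] (V : ValuationSubring F)
    (hAV : A ≤ V.toSubring) (M : Ideal A) :
    ∃ u ∈ M, ∀ m ∈ M, V.valuation (m : F) ≤ V.valuation (u : F) := by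
  classical
  obtain ⟨G, hG⟩ := (IsNoetherian.noetherian M : M.FG)
  have hne : (insert (0 : A) G).Nonempty := ⟨0, Finset.mem_insert_self _ _⟩
  obtain ⟨u, hu, hmax⟩ := Finset.exists_max_image (insert (0 : A) G)
    (fun g => V.valuation (g : F)) hne
  refine ⟨u, ?_, fun m hm => ?_⟩
  · rcases Finset.mem_insert.1 hu with h | h
    · rw [h]; exact M.zero_mem
    · rw [← hG]; exact Submodule.subset_span h
  · rw [← hG] at hm
    induction hm using Submodule.span_induction with
    | mem x hx => exact hmax x (Finset.mem_insert_of_mem hx)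
    | zero => exact hmax 0 (Finset.mem_insert_self _ _)
    | add x y _ _ hx hy =>
      exact (V.valuation.map_add _ _).trans (max_le hx hy)
    | smul a x _ hx =>
      change V.valuation ((a : F) * (x : F)) ≤ _
      rw [map_mul]
      exact (mul_le_of_le_one_left' ((V.valuation_le_one_iff _).2 (hAV a.2))).trans hx

end basics

/-- Transport of independence. -/
lemma ind_equiv {B C : Type u} [CommRing B] [CommRing C] [IsLocalRing B] [IsLocalRing C]
    (e : B ≃+* C) {ι : Type} [Fintype ι] {z : ι → B} (h : Ind z) : Ind (fun i => e (z i)) := by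
  have hm : ∀ x, e x ∈ maximalIdeal C ↔ x ∈ maximalIdeal B := by
    intro x
    rw [mem_maximalIdeal, mem_maximalIdeal, mem_nonunits_iff, mem_nonunits_iff,
      MulEquiv.isUnit_map]
  have hmap : (maximalIdeal C).comap e = maximalIdeal B := by
    ext x; exact hm x
  refine ⟨fun i => (hm _).2 (h.1 i), fun c hc i => ?_⟩
  have h1 : ∑ i, e.symm (c i) * z i ∈ maximalIdeal B ^ 2 := by
    have h2 : e (∑ i, e.symm (c i) * z i) ∈ maximalIdeal C ^ 2 := by
      rw [map_sum]
      simp only [map_mul, RingEquiv.apply_symm_apply]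
      exact hc
    have h3 : (maximalIdeal C ^ 2).comap e = maximalIdeal B ^ 2 := by
      rw [← hmap, ← Ideal.map_symm, ← Ideal.map_symm, Ideal.map_pow]
    rw [← h3]
    exact h2
  have h4 := h.2 _ h1 i
  rw [← hm, RingEquiv.apply_symm_apply] at h4
  exact h4

section gen

variable {O D : Type u} [CommRing O] [IsDomain O] [CommRing D] [Algebra O D] {m r : ℕ} (p : ℕ)
  [hp : Fact p.Prime] [CharP O p] [CharP D p]
  (ι : Fin r → Fin m) (κ : Fin r → ℕ) (U : Fin m → Fin r → O) (F : Fin r → Fin r → O)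

/-- The generators of the ring of invariants. -/
noncomputable def ρg : MvPolynomial (Fin m ⊕ Fin r) O →ₐ[O] MvPolynomial (Fin m) O :=
  (eta p ι κ U).comp (Psi p F)

theorem ρg_mem (v0 : Fin m → D)
    (hU0 : ∀ i, v0 i = ∑ l, algebraMap O D (U i l) * v0 (ι l) ^ p ^ κ l)
    (hF0 : ∀ l, (v0 (ι l) ^ p ^ κ l) ^ p =
      ∑ s, algebraMap O D (F l s) * v0 (ι s) ^ p ^ κ s) (g : MvPolynomial (Fin m ⊕ Fin r) O) :
    ρg p ι κ U F g ∈ invT O ({v0} : Set (Fin m → D)) := by
  have hp1 := hp.out.one_lt
  let ρ := ρg p ι κ U F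
  change ρ g ∈ _
  induction g using MvPolynomial.induction_on with
  | C a =>
    have : ρ (C a) = algebraMap O _ a := ρ.commutes a
    rw [this]
    exact (invT O ({v0} : Set (Fin m → D))).algebraMap_mem a
  | add f g hf hg => rw [map_add]; exact (invT O ({v0} : Set (Fin m → D))).add_mem hf hg
  | mul_X f i hf =>
    rw [map_mul]
    refine (invT O ({v0} : Set (Fin m → D))).mul_mem hf ?_
    rcases i with i | l
    · have h1 : ρ (X (Sum.inl i)) = X i - ∑ l, C (U i l) * X (ι l) ^ p ^ κ l := by
        change eta p ι κ U (Psi p F (X (Sum.inl i))) = _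
        rw [Psi_inl, eta, aeval_X]
        rfl
      rw [h1]
      intro v hv
      rw [Set.mem_singleton_iff.1 hv]
      simp only [map_sub, map_sum, map_mul, map_pow, MvPolynomial.map_X, MvPolynomial.map_C,
        tr_X, tr_C, add_pow_char_pow]
      rw [hU0 i]
      simp only [mul_add, Finset.sum_add_distrib, map_sum, map_mul, map_pow]
      ring
    · have h1 : ρ (X (Sum.inr l)) = (X (ι l) ^ p ^ κ l) ^ p -
          ∑ s, C (F l s) * X (ι s) ^ p ^ κ s := by
        change eta p ι κ U (Psi p F (X (Sum.inr l))) = _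
        rw [Psi_inr, eta]
        simp only [map_sub, map_sum, map_mul, map_pow, aeval_X, aeval_C,
          MvPolynomial.algebraMap_eq, Sum.elim_inr]
      rw [h1]
      intro v hv
      rw [Set.mem_singleton_iff.1 hv]
      have h2 := congrArg (C : D → MvPolynomial (Fin m) D) (hF0 l)
      simp only [map_sub, map_sum, map_mul, map_pow, MvPolynomial.map_X, MvPolynomial.map_C,
        tr_X, tr_C, add_pow_char_pow, add_pow_char]
      simp only [map_sum, map_mul, map_pow] at h2
      simp only [mul_add, Finset.sum_add_distrib]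
      rw [h2]
      ring

theorem ρg_surj (hinj : Function.Injective (algebraMap O D)) (v0 : Fin m → D)
    (hU0 : ∀ i, v0 i = ∑ l, algebraMap O D (U i l) * v0 (ι l) ^ p ^ κ l)
    (hF0 : ∀ l, (v0 (ι l) ^ p ^ κ l) ^ p =
      ∑ s, algebraMap O D (F l s) * v0 (ι s) ^ p ^ κ s)
    (hind : ∀ a : (Fin r → Fin p) → O, ∑ α, algebraMap O D (a α) *
      red (fun l => v0 (ι l) ^ p ^ κ l) α = 0 → ∀ α, a α = 0)
    (f : MvPolynomial (Fin m) O) (hf : f ∈ invT O ({v0} : Set (Fin m → D))) :
    ∃ g, ρg p ι κ U F g = f := by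
  obtain ⟨g, hg⟩ := exists_pre p ι κ U F hinj v0 hU0 hF0 hind f (hf v0 rfl)
  refine ⟨g, ?_⟩
  change eta p ι κ U (Psi p F g) = f
  rw [hg, eta_sub]

end gen

end Pool.Agent.Helper819.LU
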