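import Pool.Agent.Helper819.LU.Log1

/-! Log uniformization: the core. -/

set_option autoImplicit false
set_option linter.unusedSectionVars false

universe u

open MvPolynomial Pool.Agent.Helper819.TR Pool.Agent.Helper819.TR.RD Pool.Agent.W418.LU2 IsLocalRing

open scoped TensorProduct

namespace Pool.Agent.Helper819.LU

/-- The localization at a prime ideal inside the field. -/
theorem loc_equiv' {F A : Type u} [Field F] [CommRing A] (ι : A →+* F)
    (hι : Function.Injective ι) (q : Ideal A) [q.IsPrime] (O : Subring F)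
    (hmem : ∀ x, x ∈ O ↔ ∃ a b : A, b ∉ q ∧ x = ι a / ι b) :
    ∃ e : Localization.AtPrime q ≃+* O,
      ∀ a, (e (algebraMap A (Localization.AtPrime q) a) : F) = ι a := by
  have hne : ∀ b : A, b ∉ q → ι b ≠ 0 := by
    intro b hb h
    apply hb
    have : b = 0 := hι (by rw [h, map_zero])
    rw [this]
    exact q.zero_mem
  let ψ : Localization.AtPrime q →+* F := IsLocalization.lift (M := q.primeCompl) (g := ι)
    (fun b => IsUnit.mk0 _ (hne b b.2))
  have hψ : ∀ (a : A) (b : q.primeCompl), ψ (IsLocalization.mk' _ a b) = ι a / ι b := by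
    intro a b
    rw [IsLocalization.lift_mk'_spec, mul_div_cancel₀]
    exact hne b b.2
  have hψinj : Function.Injective ψ := by
    rw [injective_iff_map_eq_zero]
    intro x hx
    obtain ⟨a, b, rfl⟩ := IsLocalization.exists_mk'_eq q.primeCompl x
    rw [hψ, div_eq_zero_iff] at hx
    have h1 : ι a = 0 := hx.resolve_right (hne b b.2)
    have h2 : a = 0 := hι (by rw [h1, map_zero])
    rw [h2, IsLocalization.mk'_zero]
  have hrange : O = ψ.range := by
    ext x
    rw [hmem]
    constructor
    · rintro ⟨a, b, hb, rfl⟩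
      exact ⟨IsLocalization.mk' _ a ⟨b, hb⟩, hψ a ⟨b, hb⟩⟩
    · rintro ⟨y, rfl⟩
      obtain ⟨a, b, rfl⟩ := IsLocalization.exists_mk'_eq q.primeCompl y
      exact ⟨a, b, b.2, hψ a b⟩
  subst hrange
  refine ⟨RingEquiv.ofBijective ψ.rangeRestrict
      ⟨fun x y h => hψinj (congrArg Subtype.val h), ψ.rangeRestrict_surjective⟩, fun a => ?_⟩
  exact IsLocalization.lift_eq _ a

section formula

variable {O : Type u} [CommRing O] {m r : ℕ} (p : ℕ)
  (ι : Fin r → Fin m) (κ : Fin r → ℕ) (U : Fin m → Fin r → O) (F : Fin r → Fin r → O)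

lemma ρg_inl (i : Fin m) : ρg p ι κ U F (X (Sum.inl i)) =
    X i - ∑ l, C (U i l) * X (ι l) ^ p ^ κ l := by
  change eta p ι κ U (Psi p F (X (Sum.inl i))) = _
  rw [Psi_inl, eta, aeval_X]
  rfl

lemma ρg_inr (l : Fin r) : ρg p ι κ U F (X (Sum.inr l)) = (X (ι l) ^ p ^ κ l) ^ p -
    ∑ s, C (F l s) * X (ι s) ^ p ^ κ s := by
  change eta p ι κ U (Psi p F (X (Sum.inr l))) = _
  rw [Psi_inr, eta]
  simp only [map_sub, map_sum, map_mul, map_pow, aeval_X, aeval_C,
    MvPolynomial.algebraMap_eq, Sum.elim_inr]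

lemma map_ρg {K : Type u} [CommRing K] (g : O →+* K) (t : Fin m ⊕ Fin r) :
    MvPolynomial.map g (ρg p ι κ U F (X t)) =
      ρg p ι κ (fun i l => g (U i l)) (fun l s => g (F l s)) (X t) := by
  rcases t with i | l
  · rw [ρg_inl, ρg_inl]
    simp only [map_sub, map_sum, map_mul, map_pow, MvPolynomial.map_X, MvPolynomial.map_C]
  · rw [ρg_inr, ρg_inr]
    simp only [map_sub, map_sum, map_mul, map_pow, MvPolynomial.map_X, MvPolynomial.map_C]

end formula

/-- Denominators of the elements of the base change. -/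
lemma φ_den {A K D : Type u} [CommRing A] [IsDomain A] [Field K] [Algebra A K]
    [IsFractionRing A K] [CommRing D] [Bialgebra K D] [Algebra A D] [IsScalarTower A K D]
    {m : ℕ} (v : Fin m → D) (B : Subalgebra A K) (F : Type u) [Field F]
    [Algebra (invT A ({v} : Set (Fin m → D))) F]
    [IsFractionRing (invT A ({v} : Set (Fin m → D))) F] (s : invT B ({v} : Set (Fin m → D))) :
    ∃ c : A, c ≠ 0 ∧ ∃ s' : invT A ({v} : Set (Fin m → D)),
      iK A K F v (algebraMap A K c) * φ v B F s = algebraMap _ F s' := by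
  obtain ⟨c, f, hc, hf⟩ := exists_den (A := A) (MvPolynomial.map (algebraMap B K)
    (s : MvPolynomial (Fin m) B))
  have hs := mem_invT.1 s.2
  have hfm : f ∈ invT A ({v} : Set (Fin m → D)) := by
    rw [mem_invT]
    intro w hw
    have h1 : MvPolynomial.map (algebraMap A D) f = C (algebraMap A D c) *
        MvPolynomial.map (algebraMap B D) (s : MvPolynomial (Fin m) B) := by
      have h2 := congrArg (MvPolynomial.map (algebraMap K D)) hf
      rw [MvPolynomial.map_map, ← IsScalarTower.algebraMap_eq, map_mul, MvPolynomial.map_C,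
        ← IsScalarTower.algebraMap_apply, MvPolynomial.map_map] at h2
      rw [← h2]
      rfl
    rw [h1, map_mul, tr_C, hs w hw]
  refine ⟨c, hc, ⟨f, hfm⟩, ?_⟩
  apply (jF A K F v).injective
  rw [map_mul, jF_φ, jF_iK, jF_alg]
  change _ * algebraMap (MvPolynomial (Fin m) K) (FractionRing (MvPolynomial (Fin m) K))
    (MvPolynomial.map (algebraMap B K) _) = algebraMap (MvPolynomial (Fin m) K)
    (FractionRing (MvPolynomial (Fin m) K)) (MvPolynomial.map (algebraMap A K) f)
  rw [← map_mul, hf]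

/-- Log desingularization along a valuation ring. -/
def LogD {F : Type u} [Field F] (V : ValuationSubring F) (A : Subring F)
    (D I : Ideal A) : Prop :=
  ∃ f ∈ I, f ≠ 0 ∧ (∀ a ∈ I, (a : F) / (f : F) ∈ V) ∧
    RegularPair (cr V (bch A I f))
      (Ideal.span {z | ∃ a ∈ D * I, (z : F) = (a : F)})

/-- The two descriptions of the local ring of the blowing-up. -/
lemma ratio_mem {K : Type u} [Field K] (V : ValuationSubring K) (A : Subring K)
    [IsNoetherianRing A] (hAV : A ≤ V.toSubring) (J M : Ideal A) (f : A) (hf0 : f ≠ 0)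
    (hf : f ∈ J * M) (hfV : ∀ a ∈ J * M, (a : K) / (f : K) ∈ V) (a b : A) (ha : a ∈ J)
    (hb : b ∈ J) (hmax : ∀ c ∈ J, V.valuation (c : K) ≤ V.valuation (b : K))
    (B : Subring K) (hB : ∀ c ∈ J * M, (c : K) / (f : K) ∈ B) : (a : K) / b ∈ cr V B := by
  have hf0' : (f : K) ≠ 0 := fun h => hf0 (Subtype.ext h)
  obtain ⟨u, hu, humax⟩ := exists_top V hAV M
  have hval : V.valuation (f : K) ≤ V.valuation ((b : K) * u) := by
    refine Submodule.mul_induction_on hf (fun c hc d hd => ?_) (fun c d hc hd => ?_)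
    · change V.valuation ((c : K) * (d : K)) ≤ _
      rw [map_mul, map_mul]
      exact mul_le_mul' (hmax c hc) (humax d hd)
    · exact (V.valuation.map_add _ _).trans (max_le hc hd)
  have hbu : b * u ∈ J * M := Ideal.mul_mem_mul hb hu
  have hau : a * u ∈ J * M := Ideal.mul_mem_mul ha hu
  have h1 : V.valuation (((b * u : A) : K) / f) = 1 := by
    apply le_antisymm
    · exact (V.valuation_le_one_iff _).2 (hfV _ hbu)
    · rw [map_div₀]
      rw [one_le_div₀ (zero_lt_iff.2 ((V.valuation.ne_zero_iff).2 hf0'))]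
      exact hval
  have h2 := div_mem_cr (V := V) (hB _ hau) (hB _ hbu) h1
  have hne := ne_zero_of_val h1
  have hbu0 : ((b * u : A) : K) ≠ 0 := fun h => hne (by rw [h, zero_div])
  have hb0 : (b : K) ≠ 0 := fun h => hbu0 (by rw [Subring.coe_mul, h, zero_mul])
  have hu0 : (u : K) ≠ 0 := fun h => hbu0 (by rw [Subring.coe_mul, h, mul_zero])
  have h3 : (((a * u : A) : K) / f) / (((b * u : A) : K) / f) = (a : K) / b := by
    rw [Subring.coe_mul, Subring.coe_mul]
    field_simp
  rw [h3] at h2
  exact h2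

end Pool.Agent.Helper819.LU
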