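import Pool.Agent.Helper819.LU.Log2

/-! Log uniformization: the core. -/

set_option autoImplicit false
set_option linter.unusedSectionVars false

universe u

open MvPolynomial Pool.Agent.Helper819.TR Pool.Agent.Helper819.TR.RD Pool.Agent.W418.LU2 IsLocalRing

open scoped TensorProduct

namespace Pool.Agent.Helper819.LU

/-- Regular pairs only depend on the radical. -/
lemma pair_of_radical {P : Type u} [CommRing P] {J J' : Ideal P} (h : RegularPair P J)
    (hr : J'.radical = J.radical) : RegularPair P J' := by
  obtain ⟨h0, n, x, s, h1, h2, h3⟩ := h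
  exact ⟨h0, n, x, s, h1, h2, by rw [hr]; exact h3⟩

/-- The pair on the local ring upstairs. -/
theorem pair_up {O S F : Type u} [CommRing O] [IsLocalRing O] [IsNoetherianRing O] [CommRing S]
    [Algebra O S] [Algebra.Smooth O S] [Field F] (φ : S →+* F) (hφ : Function.Injective φ)
    (V : ValuationSubring F) (hφV : ∀ s, φ s ∈ V) (Q : Ideal S) [Q.IsPrime]
    (hQm : ∀ s, s ∈ Q ↔ V.valuation (φ s) < 1) (hQO : maximalIdeal O = Q.under O) {d : ℕ}
    (z : Fin d → O) (hz : Ideal.span (Set.range z) = maximalIdeal O) (hd : ringKrullDim O = d)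
    (s : Finset (Fin d)) :
    ∃ π : cr V φ.range, RegularPair (cr V φ.range) (Ideal.span {π}) ∧
      (π : F) = φ (algebraMap O S (∏ i ∈ s, z i)) := by
  classical
  have hval : ∀ b, b ∉ Q ↔ V.valuation (φ b) = 1 := by
    intro b
    rw [hQm, not_lt]
    constructor
    · intro h
      exact le_antisymm ((V.valuation_le_one_iff _).2 (hφV b)) h
    · intro h
      rw [h]
  obtain ⟨e, he⟩ := loc_equiv' φ hφ Q (cr V φ.range) (by
    intro x
    constructor
    · rintro ⟨_, ⟨a, rfl⟩, _, ⟨b, rfl⟩, h, rfl⟩
      exact ⟨a, b, (hval b).2 h, rfl⟩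
    · rintro ⟨a, b, hb, rfl⟩
      exact ⟨_, ⟨a, rfl⟩, _, ⟨b, rfl⟩, (hval b).1 hb, rfl⟩)
  have hloc : IsLocalRing (cr V φ.range) := e.isLocalRing
  have hind := ind_equiv e (rsp_ext Q hQO z hz hd)
  have hO : IsRegularLocalRing O := by
    refine IsRegularLocalRing.of_spanFinrank_maximalIdeal_le O ?_
    rw [hd, ← hz]
    have h3 : (Ideal.span (Set.range z)).spanFinrank ≤ d := by
      refine (Submodule.spanFinrank_span_le_ncard_of_finite (Set.finite_range z)).trans ?_
      rw [← Set.image_univ]
      refine (Set.ncard_image_le Set.finite_univ).trans ?_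
      rw [Set.ncard_univ, Nat.card_eq_fintype_card, Fintype.card_fin]
    exact_mod_cast h3
  have hregQ : IsRegularLocalRing (Localization.AtPrime Q) := by
    have h1 : IsRegularLocalRing (Localization.AtPrime (maximalIdeal O)) := by
      refine IsRegularLocalRing.of_ringEquiv (R := O) ?_
      exact (IsLocalization.atUnits O (maximalIdeal O).primeCompl (fun x hx => by
        by_contra h
        exact hx ((mem_maximalIdeal x).2 h))).toRingEquiv
    exact regular_of_smooth (B := O) Q (maximalIdeal O) hQO h1
  have hreg : IsRegularLocalRing (cr V φ.range) := IsRegularLocalRing.of_ringEquiv e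
  let zF : Fin d → cr V φ.range := fun i =>
    e (algebraMap S (Localization.AtPrime Q) (algebraMap O S (z i)))
  have h1 := regularPair_monomial (B := cr V φ.range) hind 1 isUnit_one
    (fun i => if i ∈ s then 1 else 0)
  refine ⟨∏ i ∈ s, zF i, ?_, ?_⟩
  · have h2 : 1 * ∏ i, zF i ^ (if i ∈ s then 1 else 0) = ∏ i ∈ s, zF i := by
      rw [one_mul]
      simp only [pow_ite, pow_one, pow_zero]
      rw [Finset.prod_ite_mem, Finset.univ_inter]
    rw [← h2]
    exact h1
  · have h2 : ∀ i, (zF i : F) = φ (algebraMap O S (z i)) := fun i => he _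
    rw [map_prod, map_prod]
    have h3 := map_prod (cr V φ.range).subtype zF s
    exact h3.trans (Finset.prod_congr rfl fun i _ => h2 i)

end Pool.Agent.Helper819.LU
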