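import Pool.Agent.Helper819.LU.Log3

/-! Log uniformization: the blowing-up upstairs. -/

set_option autoImplicit false
set_option linter.unusedSectionVars false

universe u

open Pool.Agent.W418.LU2 IsLocalRing

namespace Pool.Agent.Helper819.LU

section blow

variable {K F : Type u} [Field K] [Field F] (V : ValuationSubring F) (A : Subring K)
  (S' : Subring F) (i : K →+* F) (σ : A →+* S') (hσ : ∀ a, ((σ a : S') : F) = i a)
  (I : Ideal A) (f : A) (hf0 : f ≠ 0) (hfI : f ∈ I) (c : A) (hc0 : c ≠ 0)
  {τ : Type} [Fintype τ] (γ : τ → F) (g : τ → S') (hg : ∀ t, (g t : F) = i c * γ t)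

/-- The ideal generated by `c` and the elements `c γ`. -/
def Γi : Ideal S' := Ideal.span (insert (σ c) (Set.range g))

include hσ hf0 hc0 hg in
/-- The fractions lie in the ring generated by the base and the elements `γ`. -/
lemma frac_mem (W : Subring F) (hSW : S' ≤ W) (hIW : ∀ a ∈ I, i ((a : K) / f) ∈ W)
    (hγW : ∀ t, γ t ∈ W) (a : S') (ha : a ∈ I.map σ * Γi A S' σ c g) :
    (a : F) / ((σ f * σ c : S') : F) ∈ W := by
  have hf0' : i f ≠ 0 := fun h => hf0 (Subtype.ext (i.injective (h.trans (map_zero i).symm)))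
  have hc0' : i c ≠ 0 := fun h => hc0 (Subtype.ext (i.injective (h.trans (map_zero i).symm)))
  have h1 : ∀ u ∈ I.map σ, (u : F) / i f ∈ W := by
    intro u hu
    induction hu using Submodule.span_induction with
    | mem x hx =>
      obtain ⟨b, hb, rfl⟩ := hx
      rw [hσ, ← map_div₀]
      exact hIW b hb
    | zero => rw [Subring.coe_zero, zero_div]; exact W.zero_mem
    | add x y _ _ hx hy => rw [Subring.coe_add, add_div]; exact W.add_mem hx hy
    | smul s x _ hx =>
      change ((s : F) * (x : F)) / i f ∈ W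
      rw [mul_div_assoc]
      exact W.mul_mem (hSW s.2) hx
  have h2 : ∀ u ∈ Γi A S' σ c g, (u : F) / i c ∈ W := by
    intro u hu
    induction hu using Submodule.span_induction with
    | mem x hx =>
      rcases hx with rfl | ⟨t, rfl⟩
      · rw [hσ, div_self hc0']; exact W.one_mem
      · rw [hg, mul_div_cancel_left₀ _ hc0']; exact hγW t
    | zero => rw [Subring.coe_zero, zero_div]; exact W.zero_mem
    | add x y _ _ hx hy => rw [Subring.coe_add, add_div]; exact W.add_mem hx hy
    | smul s x _ hx =>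
      change ((s : F) * (x : F)) / i c ∈ W
      rw [mul_div_assoc]
      exact W.mul_mem (hSW s.2) hx
  rw [Subring.coe_mul, hσ, hσ]
  refine Submodule.mul_induction_on ha (fun x hx y hy => ?_) (fun x y hx hy => ?_)
  · have h3 : ((x * y : S') : F) / (i f * i c) = (x : F) / i f * ((y : F) / i c) := by
      rw [Subring.coe_mul]; field_simp
    change ((x * y : S') : F) / (i f * i c) ∈ W
    rw [h3]
    exact W.mul_mem (h1 x hx) (h2 y hy)
  · rw [Subring.coe_add, add_div]
    exact W.add_mem hx hy

include hσ hf0 hc0 hg hfI in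
/-- The chart of the blowing-up and the ring generated by the base and the elements `γ` have the
same local ring at the centre. -/
lemma chart_cr (V₀ : ValuationSubring K)
    (hV₀ : ∀ z, V₀.valuation z = 1 → V.valuation (i z) = 1)
    (W : Subring F) (hSW : S' ≤ W) (hIW : ∀ a ∈ I, i ((a : K) / f) ∈ W)
    (hγW : ∀ t, γ t ∈ W)
    (hgen : ∀ w ∈ W, w ∈ Subring.closure ((i '' (cr V₀ (bch A I f) : Set K)) ∪ Set.range γ)) :
    cr V (bch S' (I.map σ * Γi A S' σ c g) (σ f * σ c)) = cr V W := by
  have hf0' : i f ≠ 0 := fun h => hf0 (Subtype.ext (i.injective (h.trans (map_zero i).symm)))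
  have hc0' : i c ≠ 0 := fun h => hc0 (Subtype.ext (i.injective (h.trans (map_zero i).symm)))
  have hS : S' ≤ bch S' (I.map σ * Γi A S' σ c g) (σ f * σ c) :=
    fun s hs => Subring.subset_closure (Or.inl hs)
  have hB : ∀ b ∈ bch A I f, i b ∈ bch S' (I.map σ * Γi A S' σ c g) (σ f * σ c) := by
    intro b hb
    induction hb using Subring.closure_induction with
    | mem x hx =>
      rcases hx with hx | ⟨a, ha, rfl⟩
      · have h1 := hσ ⟨x, hx⟩
        rw [← h1]
        exact hS (σ ⟨x, hx⟩).2
      · refine Subring.subset_closure (Or.inr ⟨σ a * σ c, Ideal.mul_mem_mul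
          (Ideal.mem_map_of_mem σ ha) (Ideal.subset_span (Set.mem_insert _ _)), ?_⟩)
        rw [Subring.coe_mul, Subring.coe_mul, hσ, hσ, hσ, map_div₀, mul_div_mul_right _ _ hc0']
    | zero => rw [map_zero]; exact Subring.zero_mem _
    | one => rw [map_one]; exact Subring.one_mem _
    | add x y _ _ hx hy => rw [map_add]; exact Subring.add_mem _ hx hy
    | neg x _ hx => rw [map_neg]; exact Subring.neg_mem _ hx
    | mul x y _ _ hx hy => rw [map_mul]; exact Subring.mul_mem _ hx hy
  have hγ : ∀ t, γ t ∈ bch S' (I.map σ * Γi A S' σ c g) (σ f * σ c) := by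
    intro t
    refine Subring.subset_closure (Or.inr ⟨σ f * g t, Ideal.mul_mem_mul
      (Ideal.mem_map_of_mem σ hfI) (Ideal.subset_span (Set.mem_insert_of_mem _ ⟨t, rfl⟩)), ?_⟩)
    rw [Subring.coe_mul, Subring.coe_mul, hσ, hσ, hg]
    field_simp
  refine cr_eq V ?_ ?_
  · refine Subring.closure_le.2 ?_
    rintro z (hz | ⟨a, ha, rfl⟩)
    · exact hSW hz
    · exact frac_mem A S' i σ hσ I f hf0 c hc0 γ g hg W hSW hIW hγW a ha
  · intro w hw
    have h1 := hgen w hw
    clear hw
    induction h1 using Subring.closure_induction with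
    | mem x hx =>
      rcases hx with ⟨_, ⟨a, ha, b, hb, h, rfl⟩, rfl⟩ | ⟨t, rfl⟩
      · refine ⟨i b, hB b hb, hV₀ b h, ?_⟩
        rw [map_div₀, mul_div_cancel₀ _ (ne_zero_of_val (hV₀ b h))]
        exact hB a ha
      · exact ⟨1, Subring.one_mem _, map_one _, by rw [one_mul]; exact hγ t⟩
    | zero => exact ⟨1, Subring.one_mem _, map_one _, by rw [mul_zero]; exact Subring.zero_mem _⟩
    | one => exact ⟨1, Subring.one_mem _, map_one _, by rw [mul_one]; exact Subring.one_mem _⟩
    | neg x _ hx =>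
      obtain ⟨d, hd, h, hdx⟩ := hx
      exact ⟨d, hd, h, by rw [mul_neg]; exact Subring.neg_mem _ hdx⟩
    | add x y _ _ hx hy =>
      obtain ⟨d, hd, hd1, hdx⟩ := hx
      obtain ⟨d', hd', hd1', hdy⟩ := hy
      refine ⟨d * d', Subring.mul_mem _ hd hd', by rw [map_mul, hd1, hd1', one_mul], ?_⟩
      have h1 : d * d' * (x + y) = d' * (d * x) + d * (d' * y) := by ring
      rw [h1]
      exact Subring.add_mem _ (Subring.mul_mem _ hd' hdx) (Subring.mul_mem _ hd hdy)
    | mul x y _ _ hx hy =>
      obtain ⟨d, hd, hd1, hdx⟩ := hx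
      obtain ⟨d', hd', hd1', hdy⟩ := hy
      refine ⟨d * d', Subring.mul_mem _ hd hd', by rw [map_mul, hd1, hd1', one_mul], ?_⟩
      have h1 : d * d' * (x * y) = (d * x) * (d' * y) := by ring
      rw [h1]
      exact Subring.mul_mem _ hdx hdy

end blow

end Pool.Agent.Helper819.LU
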