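import Pool.Agent.Helper819.LU.Log4

/-! Log uniformization: the radicals. -/

set_option autoImplicit false
set_option linter.unusedSectionVars false

universe u

open Pool.Agent.W418.LU2 IsLocalRing

namespace Pool.Agent.Helper819.LU

section blow

variable {K F : Type u} [Field K] [Field F] (A : Subring K)
  (S' : Subring F) (i : K →+* F) (σ : A →+* S') (hσ : ∀ a, ((σ a : S') : F) = i a)
  (I : Ideal A) (f : A) (c : A)
  {τ : Type} [Fintype τ] (g : τ → S')

include hσ in
/-- The radicals of the two ideals upstairs. -/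
lemma radical_up (V₀ : ValuationSubring K) (P : Subring F) (hS'P : S' ≤ P)
    (hOP : ∀ z ∈ cr V₀ (bch A I f), i z ∈ P) (D₀ : Ideal A) (hIc : I ≤ Ideal.span {c})
    (π₀ : cr V₀ (bch A I f))
    (hrad : (Ideal.span {z : cr V₀ (bch A I f) | ∃ a ∈ D₀ * I, (z : K) = (a : K)}).radical =
      Ideal.span {π₀}) (π : P) (hπ : (π : F) = i π₀) :
    (Ideal.span {z : P | ∃ a ∈ D₀.map σ * (I.map σ * Γi A S' σ c g), (z : F) = (a : F)}).radical =
      (Ideal.span {π}).radical := by
  let O := cr V₀ (bch A I f)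
  let ψ : O →+* P := (i.comp O.subtype).codRestrict P (fun z => hOP z z.2)
  have hψ : ∀ z : O, ((ψ z : P) : F) = i z := fun z => rfl
  let j : S' →+* P := Subring.inclusion hS'P
  have hj : ∀ s : S', ((j s : P) : F) = s := fun s => rfl
  have hle : A ≤ O := fun a ha => le_cr V₀ _ (Subring.subset_closure (Or.inl ha))
  let J₂ : Ideal O := Ideal.span {z : O | ∃ a ∈ D₀ * I, (z : K) = (a : K)}
  let JF : Ideal P := Ideal.span {z : P | ∃ a ∈ D₀.map σ * (I.map σ * Γi A S' σ c g),
    (z : F) = (a : F)}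
  have hπψ : ψ π₀ = π := Subtype.ext hπ.symm
  apply le_antisymm
  · refine Ideal.radical_mono ?_
    rw [Ideal.span_le]
    rintro z ⟨a, ha, hza⟩
    have h1 : D₀.map σ * (I.map σ * Γi A S' σ c g) ≤ (Ideal.span {π}).comap j := by
      refine le_trans (Ideal.mul_mono_right Ideal.mul_le_left) ?_
      rw [← Ideal.map_mul, Ideal.map_le_iff_le_comap]
      intro b hb
      rw [Ideal.mem_comap, Ideal.mem_comap]
      have h2 : (⟨(b : K), hle b.2⟩ : O) ∈ J₂.radical :=
        Ideal.le_radical (Ideal.subset_span ⟨b, hb, rfl⟩)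
      have h3 : J₂.radical = Ideal.span {π₀} := hrad
      rw [h3, Ideal.mem_span_singleton] at h2
      obtain ⟨w, hw⟩ := h2
      rw [Ideal.mem_span_singleton]
      refine ⟨ψ w, Subtype.ext ?_⟩
      have h4 := congrArg (fun t : O => i (t : K)) hw
      simp only [Subring.coe_mul, map_mul] at h4
      change ((σ b : S') : F) = (π : F) * i w
      rw [hσ, h4, hπ]
    have h2 : z = j a := Subtype.ext hza
    rw [h2]
    exact h1 ha
  · rw [Ideal.radical_le_radical_iff, Ideal.span_le, Set.singleton_subset_iff]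
    have h1 : π₀ ∈ J₂.radical := by
      have h3 : J₂.radical = Ideal.span {π₀} := hrad
      rw [h3]
      exact Ideal.mem_span_singleton_self _
    obtain ⟨N, hN⟩ := Ideal.mem_radical_iff.1 h1
    have h2 : J₂.map ψ * J₂.map ψ ≤ JF := by
      rw [Ideal.map_span, Ideal.span_mul_span, Ideal.span_le]
      intro w hw
      obtain ⟨_, ⟨y, ⟨a, ha, hya⟩, rfl⟩, _, ⟨y', ⟨a', ha', hya'⟩, rfl⟩, rfl⟩ := hw
      have h3' : a' ∈ I := Ideal.mul_le_right ha'
      have h3 : a' ∈ Ideal.span {c} := hIc h3'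
      obtain ⟨b', hb'⟩ := Ideal.mem_span_singleton.1 h3
      have h4 : σ a * σ c ∈ D₀.map σ * (I.map σ * Γi A S' σ c g) := by
        rw [← mul_assoc, ← Ideal.map_mul]
        exact Ideal.mul_mem_mul (Ideal.mem_map_of_mem σ ha) (Ideal.subset_span
          (Set.mem_insert _ _))
      have h5 : j (σ a * σ c) ∈ JF := Ideal.subset_span ⟨_, h4, rfl⟩
      have h6 : ψ y * ψ y' = j (σ b') * j (σ a * σ c) := by
        apply Subtype.ext
        change i y * i y' = ((σ b' : S') : F) * (((σ a : S') : F) * ((σ c : S') : F))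
        rw [hσ, hσ, hσ, hya, hya', hb', Subring.coe_mul, map_mul]
        ring
      change ψ y * ψ y' ∈ JF
      rw [h6]
      exact JF.mul_mem_left _ h5
    have h3 : π ^ (N + N) ∈ JF := by
      apply h2
      rw [pow_add, ← hπψ, ← map_pow]
      exact Ideal.mul_mem_mul (Ideal.mem_map_of_mem ψ hN) (Ideal.mem_map_of_mem ψ hN)
    exact Ideal.mem_radical_iff.2 ⟨_, h3⟩

end blow

end Pool.Agent.Helper819.LU
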