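import Pool.Agent.Helper819.LU.Log5

/-! Log uniformization: the theorem. -/

set_option autoImplicit false
set_option linter.unusedSectionVars false

universe u

open MvPolynomial Pool.Agent.Helper819.TR Pool.Agent.Helper819.TR.RD Pool.Agent.W418.LU2 IsLocalRing

open scoped TensorProduct

namespace Pool.Agent.Helper819.LU

/-- The homomorphism from the base. -/
noncomputable def σS {K F D : Type u} [Field K] (A : Subring K) [CommRing D] [Algebra A D]
    {m : ℕ} (v : Fin m → D) [Field F] [Algebra (invT A ({v} : Set (Fin m → D))) F] :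
    A →+* (algebraMap (invT A ({v} : Set (Fin m → D))) F).range :=
  (algebraMap (invT A ({v} : Set (Fin m → D))) F).rangeRestrict.comp
    (algebraMap A (invT A ({v} : Set (Fin m → D))))

lemma σS_eq {K F D : Type u} [Field K] (A : Subring K) [CommRing D] [Algebra A D]
    {m : ℕ} (v : Fin m → D) [Field F] [Algebra (invT A ({v} : Set (Fin m → D))) F] (a : A) :
    ((σS A v a : (algebraMap (invT A ({v} : Set (Fin m → D))) F).range) : F) =
      algebraMap (invT A ({v} : Set (Fin m → D))) F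
        (algebraMap A (invT A ({v} : Set (Fin m → D))) a) := rfl

lemma hσ_lemma {K F D : Type u} [Field K]
    (A : Subring K) [IsFractionRing A K] [CommRing D] [Bialgebra K D]
    [Algebra A D] [IsScalarTower A K D] {m : ℕ} (v : Fin m → D)
    [Field F] [Algebra (invT A ({v} : Set (Fin m → D))) F]
    [IsFractionRing (invT A ({v} : Set (Fin m → D))) F] (a : A) :
    ((σS A v a : (algebraMap (invT A ({v} : Set (Fin m → D))) F).range) : F) =
      iK A K F v (a : K) := by
  rw [σS_eq]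
  have h := iK_alg (A := A) (K := K) (F := F) (v := v) a
  rw [← h]
  rfl

theorem log_core (p : ℕ) [hp : Fact p.Prime] {K F D : Type u} [Field K] [CharP K p]
    (A : Subring K) [IsNoetherianRing A] [IsFractionRing A K] [CommRing D] [Bialgebra K D]
    [Algebra A D] [IsScalarTower A K D] {m : ℕ} (v : Fin m → D)
    (hv : ∀ i, Coalgebra.comul (R := K) (v i) = v i ⊗ₜ[K] 1 + 1 ⊗ₜ[K] v i)
    (hint : ∀ i, IsIntegral A (v i)) [Field F] [Algebra (invT A ({v} : Set (Fin m → D))) F]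
    [IsFractionRing (invT A ({v} : Set (Fin m → D))) F] (V : ValuationSubring F)
    (hV : ∀ s, algebraMap (invT A ({v} : Set (Fin m → D))) F s ∈ V)
    (hLU : ∀ D₀ I₀ : Ideal A, D₀ ≠ ⊥ → I₀ ≠ ⊥ → ∃ I₁ : Ideal A, I₁ ≠ ⊥ ∧
      LogD (V.comap (iK A K F v)) A D₀ (I₀ * I₁))
    (D₀ I₀ : Ideal A) (hD : D₀ ≠ ⊥) (hI : I₀ ≠ ⊥) :
    ∃ I₁ : Ideal (algebraMap (invT A ({v} : Set (Fin m → D))) F).range, I₁ ≠ ⊥ ∧
      LogD V (algebraMap (invT A ({v} : Set (Fin m → D))) F).range (D₀.map (σS A v))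
        (I₀.map (σS A v) * I₁) := by
  classical
  have hnt : Nontrivial D := nontrivial_of_bialgebra K D
  have hchD : CharP D p := charP_of_bialgebra K D p
  let i := iK A K F v
  let S' := (algebraMap (invT A ({v} : Set (Fin m → D))) F).range
  let σ : A →+* S' := σS A v
  have hσ : ∀ a, ((σ a : S') : F) = i a := fun a => hσ_lemma A v a
  let V₀ := V.comap i
  have hAV₀ : A ≤ V₀.toSubring := by
    intro a ha
    change i a ∈ V
    rw [← hσ ⟨a, ha⟩]
    exact hV _
  obtain ⟨n, x, hn, hx0, hch⟩ := chartK (A := A) (K := K) (D := D) p m v hv hint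
  obtain ⟨j, hj⟩ := exists_min V₀ hn x
  let C := Algebra.adjoin A (Set.range fun i' => x i' / x j)
  obtain ⟨r, ι, κ, U, Fm, hU, hF, hind⟩ := hch C ⟨j, fun i' => Algebra.subset_adjoin ⟨i', rfl⟩⟩
  have hinjC : Function.Injective (algebraMap C D) :=
    (algebraMap K D).injective.comp Subtype.val_injective
  have hcharC : CharP C p := (RingHom.charP_iff _ hinjC p).2 inferInstance
  let γC : Fin m ⊕ Fin r → invT C ({v} : Set (Fin m → D)) := fun t =>
    ⟨ρg p ι κ U Fm (X t), ρg_mem p ι κ U Fm v hU hF (X t)⟩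
  let γ : Fin m ⊕ Fin r → F := fun t => φ v C F (γC t)
  have hden1 : ∀ t, ∃ c : A, c ≠ 0 ∧ ∃ s' : invT A ({v} : Set (Fin m → D)),
      i (c : K) * γ t = algebraMap _ F s' := fun t => φ_den v C F (γC t)
  choose c hc0 s' hcs using hden1
  let c₀ : A := ∏ t, c t
  have hc₀ : c₀ ≠ 0 := Finset.prod_ne_zero_iff.2 fun t _ => hc0 t
  have hg : ∀ t, ∃ g : S', (g : F) = i (c₀ : K) * γ t := by
    intro t
    have h1 : c₀ = (∏ t' ∈ Finset.univ.erase t, c t') * c t :=
      (Finset.prod_erase_mul _ _ (Finset.mem_univ t)).symm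
    refine ⟨σ (∏ t' ∈ Finset.univ.erase t, c t') * ⟨algebraMap _ F (s' t), ⟨_, rfl⟩⟩, ?_⟩
    rw [Subring.coe_mul, hσ, h1, Subring.coe_mul, map_mul, mul_assoc, hcs]
  choose g hg using hg
  -- common denominators
  obtain ⟨b, hb⟩ := IsLocalization.exist_integer_multiples_of_finite (nonZeroDivisors A) x
  choose a ha using hb
  have hb0 : ((b : A) : K) ≠ 0 := fun h => nonZeroDivisors.ne_zero b.2 (Subtype.ext h)
  have ha' : ∀ i', (a i' : K) = (b : A) * x i' := by
    intro i'
    have h1 := ha i'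
    rw [Algebra.smul_def] at h1
    exact h1
  have ha0 : ∀ i', a i' ≠ 0 := by
    intro i' h
    have h1 := ha' i'
    rw [h] at h1
    exact mul_ne_zero hb0 (hx0 i') h1.symm
  have hratio : ∀ i', (a i' : K) / a j = x i' / x j := by
    intro i'
    rw [ha', ha', mul_div_mul_left _ _ hb0]
  let J₀ : Ideal A := Ideal.span (Set.range a)
  have hJ₀ : J₀ ≠ ⊥ := by
    intro h
    have h1 : a j ∈ J₀ := Ideal.subset_span ⟨j, rfl⟩
    rw [h] at h1
    exact ha0 j h1
  have hcs0 : Ideal.span {c₀} ≠ ⊥ := by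
    rw [Ne, Ideal.span_singleton_eq_bot]
    exact hc₀
  have hprod : I₀ * (J₀ * Ideal.span {c₀}) ≠ ⊥ := by
    rw [Ne, Ideal.mul_eq_bot, Ideal.mul_eq_bot, not_or, not_or]
    exact ⟨hI, hJ₀, hcs0⟩
  obtain ⟨I₁, hI₁, f, hfI, hf0, hfV, hreg, d, z, s, hz, hd, hrad⟩ := hLU D₀ _ hD hprod
  let I : Ideal A := I₀ * (J₀ * Ideal.span {c₀}) * I₁
  let B₂ := bch A I f
  have hBV₀ : B₂ ≤ V₀.toSubring := by
    refine Subring.closure_le.2 ?_
    rintro w (hw | ⟨a', ha', rfl⟩)
    · exact hAV₀ hw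
    · exact hfV a' ha'
  have hAB : A ≤ B₂ := fun a ha => Subring.subset_closure (Or.inl ha)
  have hIJ : I = J₀ * (I₀ * Ideal.span {c₀} * I₁) := by
    change I₀ * (J₀ * Ideal.span {c₀}) * I₁ = _
    ring
  have hxO : ∀ i', x i' / x j ∈ cr V₀ B₂ := by
    intro i'
    rw [← hratio]
    refine ratio_mem V₀ A hAV₀ J₀ (I₀ * Ideal.span {c₀} * I₁) f hf0 (hIJ ▸ hfI)
      (fun a' h => hfV a' (by change a' ∈ I; rw [hIJ]; exact h)) (a i') (a j)
      (Ideal.subset_span ⟨i', rfl⟩) (Ideal.subset_span ⟨j, rfl⟩) ?_ B₂ ?_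
    · intro c' hc'
      induction hc' using Submodule.span_induction with
      | mem y hy =>
        obtain ⟨i'', rfl⟩ := hy
        have h1 : V₀.valuation ((a i'' : K) / a j) ≤ 1 := by
          rw [hratio]
          exact (V₀.valuation_le_one_iff _).2 (hj i'')
        rw [map_div₀] at h1
        have h2 : (a j : K) ≠ 0 := fun h => ha0 j (Subtype.ext h)
        exact (div_le_one₀ (zero_lt_iff.2 ((V₀.valuation.ne_zero_iff).2 h2))).1 h1
      | zero => rw [Subring.coe_zero, map_zero]; exact zero_le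
      | add y y' _ _ hy hy' => exact (V₀.valuation.map_add _ _).trans (max_le hy hy')
      | smul a' y _ hy =>
        change V₀.valuation ((a' : K) * (y : K)) ≤ _
        rw [map_mul]
        exact (mul_le_of_le_one_left' ((V₀.valuation_le_one_iff _).2 (hAV₀ a'.2))).trans hy
    · intro c' hc'
      exact Subring.subset_closure (Or.inr ⟨c', by rw [hIJ]; exact hc', rfl⟩)
  -- the local ring of the base
  let O : Subalgebra A K :=
    { cr V₀ B₂ with algebraMap_mem' := fun a => le_cr V₀ B₂ (hAB a.2) }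
  have hCO : C ≤ O := by
    refine Algebra.adjoin_le ?_
    rintro _ ⟨i', rfl⟩
    exact hxO i'
  let e0 : cr V₀ B₂ ≃+* O :=
    { toFun := fun y => ⟨y.1, y.2⟩
      invFun := fun y => ⟨y.1, y.2⟩
      left_inv := fun _ => rfl
      right_inv := fun _ => rfl
      map_mul' := fun _ _ => rfl
      map_add' := fun _ _ => rfl }
  have hreg' : IsRegularLocalRing (cr V₀ B₂) := hreg
  have hregO : IsRegularLocalRing O := IsRegularLocalRing.of_ringEquiv e0
  have hmaxO : ∀ y : O, y ∈ maximalIdeal O ↔ e0.symm y ∈ maximalIdeal (cr V₀ B₂) := by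
    intro y
    rw [mem_maximalIdeal, mem_maximalIdeal, mem_nonunits_iff, mem_nonunits_iff,
      MulEquiv.isUnit_map]
  let zO : Fin d → O := fun t => e0 (z t)
  have hzO : Ideal.span (Set.range zO) = maximalIdeal O := by
    have h1 : (maximalIdeal (cr V₀ B₂)).map e0 = maximalIdeal O := by
      exact map_ringEquiv_maximalIdeal e0
    rw [← h1]
    have h2 : Ideal.span (Set.range z) = maximalIdeal (cr V₀ B₂) := hz
    rw [← h2, Ideal.map_span, ← Set.range_comp]
    rfl
  have hdO : ringKrullDim O = d := by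
    rw [← ringKrullDim_eq_of_ringEquiv e0]
    exact hd
  have hOV : ∀ b : O, i (b : K) ∈ V := fun b => cr_le hBV₀ b.2
  let inc : C →ₐ[A] O := Subalgebra.inclusion hCO
  let UO : Fin m → Fin r → O := fun a l => inc (U a l)
  let FO : Fin r → Fin r → O := fun l s => inc (Fm l s)
  have hinjO : Function.Injective (algebraMap O D) :=
    (algebraMap K D).injective.comp Subtype.val_injective
  have hcharO : CharP O p := (RingHom.charP_iff _ hinjO p).2 inferInstance
  have hUO : ∀ a, v a = ∑ l, algebraMap O D (UO a l) * v (ι l) ^ p ^ κ l := hU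
  have hFO : ∀ l, (v (ι l) ^ p ^ κ l) ^ p =
    ∑ s, algebraMap O D (FO l s) * v (ι s) ^ p ^ κ s := hF
  have hindO : ∀ a : (Fin r → Fin p) → O, ∑ α, algebraMap O D (a α) *
      red (fun l => v (ι l) ^ p ^ κ l) α = 0 → ∀ α, a α = 0 :=
    fun a h α => Subtype.ext (hind (fun α => (a α : K)) h α)
  have hsm := smooth_inv (p := p) (O := O) (D := D) (U := UO) (F := FO) (ι := ι) (κ := κ) hinjO
    v hUO hFO hindO
  have hφV := φ_mem v O F p hint V hV hOV
  obtain ⟨Q, hQ, hQm⟩ := exists_centre (φ v O F) V hφV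
  have hQO : maximalIdeal O = Q.under O := by
    ext y
    rw [Ideal.under_def, Ideal.mem_comap, hQm, φ_alg, hmaxO, mem_max_cr hBV₀]
    exact comap_lt_one _ _ _
  obtain ⟨π, hπpair, hπ⟩ := pair_up (O := O) (φ v O F) (φ_inj v O F) V hφV Q hQm hQO zO hzO hdO s
  have hρmem := ρg_mem p ι κ UO FO v hUO hFO
  have hγO : ∀ t, γ t = φ v O F ⟨ρg p ι κ UO FO (X t), hρmem (X t)⟩ := by
    intro t
    apply (jF A K F v).injective
    change jF A K F v (φ v C F (γC t)) = _
    rw [jF_φ, jF_φ]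
    change algebraMap (MvPolynomial (Fin m) K) (FractionRing (MvPolynomial (Fin m) K))
      (MvPolynomial.map (algebraMap C K) (ρg p ι κ U Fm (X t))) =
      algebraMap (MvPolynomial (Fin m) K) (FractionRing (MvPolynomial (Fin m) K))
      (MvPolynomial.map (algebraMap O K) (ρg p ι κ UO FO (X t)))
    rw [map_ρg, map_ρg]
    rfl
  let W := (φ v O F).range
  have hSW : S' ≤ W := by
    rintro _ ⟨s, rfl⟩
    exact ⟨θ v O s, φ_θ v O F s⟩
  have hOW : ∀ y ∈ cr V₀ B₂, i y ∈ W := fun y hy =>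
    ⟨algebraMap O _ ⟨y, hy⟩, φ_alg v O F ⟨y, hy⟩⟩
  have hIW : ∀ a ∈ I, i ((a : K) / f) ∈ W := fun a ha =>
    hOW _ (le_cr V₀ B₂ (Subring.subset_closure (Or.inr ⟨a, ha, rfl⟩)))
  have hγW : ∀ t, γ t ∈ W := fun t => ⟨_, (hγO t).symm⟩
  have hgen : ∀ w ∈ W, w ∈ Subring.closure ((i '' (cr V₀ (bch A I f) : Set K)) ∪
      Set.range γ) := by
    rintro _ ⟨w, rfl⟩
    obtain ⟨q, hq⟩ := ρg_surj p ι κ UO FO hinjO v hUO hFO hindO w.1 w.2
    have h1 : ∀ q : MvPolynomial (Fin m ⊕ Fin r) O, φ v O F ⟨ρg p ι κ UO FO q, hρmem q⟩ ∈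
        Subring.closure ((i '' (cr V₀ (bch A I f) : Set K)) ∪ Set.range γ) := by
      intro q
      induction q using MvPolynomial.induction_on with
      | C y =>
        have h2 : (⟨ρg p ι κ UO FO (MvPolynomial.C y), hρmem (MvPolynomial.C y)⟩ : invT O ({v} : Set (Fin m → D))) =
            algebraMap O _ y := Subtype.ext ((ρg p ι κ UO FO).commutes y)
        rw [h2, φ_alg]
        exact Subring.subset_closure (Or.inl ⟨y, y.2, rfl⟩)
      | add q q' h h' =>
        have h2 : (⟨ρg p ι κ UO FO (q + q'), hρmem (q + q')⟩ :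
            invT O ({v} : Set (Fin m → D))) = ⟨ρg p ι κ UO FO q, hρmem q⟩ +
              ⟨ρg p ι κ UO FO q', hρmem q'⟩ := Subtype.ext (map_add _ _ _)
        rw [h2, map_add]
        exact Subring.add_mem _ h h'
      | mul_X q t h =>
        have h2 : (⟨ρg p ι κ UO FO (q * X t), hρmem (q * X t)⟩ :
            invT O ({v} : Set (Fin m → D))) = ⟨ρg p ι κ UO FO q, hρmem q⟩ *
              ⟨ρg p ι κ UO FO (X t), hρmem (X t)⟩ := Subtype.ext (map_mul _ _ _)
        rw [h2, map_mul, ← hγO]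
        exact Subring.mul_mem _ h (Subring.subset_closure (Or.inr ⟨t, rfl⟩))
    have h2 := h1 q
    have h3 : (⟨ρg p ι κ UO FO q, hρmem q⟩ : invT O ({v} : Set (Fin m → D))) = w :=
      Subtype.ext hq
    rwa [h3] at h2
  have hval : ∀ y, V₀.valuation y = 1 → V.valuation (i y) = 1 := by
    intro y hy
    have h1 : ¬ V.valuation (i y) < 1 := by
      rw [← comap_lt_one i V]
      exact fun h => absurd hy h.ne
    have h2 : i y ∈ V := (V₀.valuation_le_one_iff y).1 hy.le
    exact le_antisymm ((V.valuation_le_one_iff _).2 h2) (not_lt.1 h1)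
  have hcr := chart_cr V A S' i σ hσ I f hf0 hfI c₀ hc₀ γ g hg V₀ hval W hSW hIW hγW hgen
  have hσinj : Function.Injective σ := by
    intro y y' h
    have h1 := congrArg (fun t : S' => (t : F)) h
    simp only [hσ] at h1
    exact Subtype.ext (i.injective h1)
  have hσc : σ c₀ ≠ 0 := (map_ne_zero_iff σ hσinj).2 hc₀
  have hσf : σ f ≠ 0 := (map_ne_zero_iff σ hσinj).2 hf0
  have hΓ : Γi A S' σ c₀ g ≠ ⊥ := by
    intro h
    have h1 : σ c₀ ∈ Γi A S' σ c₀ g := Ideal.subset_span (Set.mem_insert _ _)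
    rw [h] at h1
    exact hσc h1
  have hII : I₀.map σ * ((J₀ * Ideal.span {c₀} * I₁).map σ * Γi A S' σ c₀ g) =
      I.map σ * Γi A S' σ c₀ g := by
    rw [← mul_assoc, ← Ideal.map_mul]
    congr 2
    change I₀ * (J₀ * Ideal.span {c₀} * I₁) = I₀ * (J₀ * Ideal.span {c₀}) * I₁
    ring
  have hIc : I ≤ Ideal.span {c₀} :=
    (Ideal.mul_le_left.trans Ideal.mul_le_right).trans Ideal.mul_le_right
  refine ⟨(J₀ * Ideal.span {c₀} * I₁).map σ * Γi A S' σ c₀ g, ?_, ?_⟩
  · rw [Ne, Ideal.mul_eq_bot, not_or]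
    refine ⟨?_, hΓ⟩
    rw [Ideal.map_eq_bot_iff_of_injective hσinj, Ideal.mul_eq_bot, Ideal.mul_eq_bot, not_or,
      not_or]
    exact ⟨⟨hJ₀, hcs0⟩, hI₁⟩
  · change LogD V S' (D₀.map σ) (I₀.map σ * _)
    rw [hII]
    refine ⟨σ f * σ c₀, Ideal.mul_mem_mul (Ideal.mem_map_of_mem σ hfI)
      (Ideal.subset_span (Set.mem_insert _ _)), mul_ne_zero hσf hσc, fun a' ha' => ?_, ?_⟩
    · obtain ⟨w, hw⟩ := frac_mem A S' i σ hσ I f hf0 c₀ hc₀ γ g hg W hSW hIW hγW a' ha'
      rw [← hw]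
      exact hφV w
    · have key : ∀ P : Subring F, P = cr V W → RegularPair P (Ideal.span {z : P |
          ∃ a ∈ D₀.map σ * (I.map σ * Γi A S' σ c₀ g), (z : F) = (a : F)}) := by
        rintro P rfl
        refine pair_of_radical hπpair ?_
        refine radical_up A S' i σ hσ I f c₀ g V₀ (cr V W) (hSW.trans (le_cr V W))
          (fun z hz => le_cr V W (hOW z hz)) D₀ hIc (∏ t ∈ s, z t) hrad π ?_
        rw [hπ, φ_alg]
        have h1 : ∏ t ∈ s, zO t = e0 (∏ t ∈ s, z t) := (map_prod e0 z s).symm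
        rw [h1]
        rfl
      exact key _ hcr

end Pool.Agent.Helper819.LU
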