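import Pool.Agent.Helper819.LU.Log6

/-! Log uniformization: the final form. -/

set_option autoImplicit false
set_option linter.unusedSectionVars false

universe u

open MvPolynomial Pool.Agent.Helper819.TR Pool.Agent.Helper819.TR.RD Pool.Agent.W418.LU2 IsLocalRing

open scoped TensorProduct

namespace Pool.Agent.Helper819.LU

/-- The extension of ideals to the ring upstairs. -/
noncomputable def ext' {A S : Type u} (F : Type u) [CommRing A] [CommRing S] [Algebra A S]
    [Field F] [Algebra S F] (J : Ideal A) : Ideal (algebraMap S F).range :=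
  J.map ((algebraMap S F).rangeRestrict.comp (algebraMap A S))

theorem log_final (p : ℕ) [hp : Fact p.Prime] {K F D : Type u} [Field K] [CharP K p]
    (A : Subring K) [IsNoetherianRing A] (hA : ∀ z : K, ∃ a b : A, b ≠ 0 ∧ z = (a : K) / b)
    [CommRing D] [Bialgebra K D] {m : ℕ} (v : Fin m → D)
    (hv : ∀ i, Coalgebra.comul (R := K) (v i) = v i ⊗ₜ[K] 1 + 1 ⊗ₜ[K] v i)
    (hint : ∀ i, IsIntegral A (v i))
    {S : Subalgebra A (MvPolynomial (Fin m) A)} (hS : S = invT A ({v} : Set (Fin m → D)))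
    [Field F] [Algebra S F] [IsFractionRing S F] (V : ValuationSubring F)
    (hV : ∀ s, algebraMap S F s ∈ V) (V₀ : ValuationSubring K)
    (hV₀ : ∀ a b : A, b ≠ 0 → ((a : K) / b ∈ V₀ ↔
      algebraMap S F (algebraMap A S a) / algebraMap S F (algebraMap A S b) ∈ V))
    (hLU : ∀ D₀ I₀ : Ideal A, D₀ ≠ ⊥ → I₀ ≠ ⊥ → ∃ I₁ : Ideal A, I₁ ≠ ⊥ ∧
      LogD V₀ A D₀ (I₀ * I₁))
    (D₀ I₀ : Ideal A) (hD : D₀ ≠ ⊥) (hI : I₀ ≠ ⊥) :
    ∃ I₁ : Ideal (algebraMap S F).range, I₁ ≠ ⊥ ∧ LogD V (algebraMap S F).range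
      (ext' (S := S) F D₀) (ext' (S := S) F I₀ * I₁) := by
  subst hS
  have hfr : IsFractionRing A K := by
    refine IsFractionRing.of_field A K fun z => ?_
    obtain ⟨a, b, -, h⟩ := hA z
    exact ⟨a, b, h⟩
  have h : V₀ = V.comap (iK A K F v) := by
    ext z
    obtain ⟨a, b, hb, rfl⟩ := hA z
    rw [hV₀ a b hb, ValuationSubring.mem_comap, map_div₀]
    have h1 := iK_alg (A := A) (K := K) (F := F) (v := v) a
    have h2 := iK_alg (A := A) (K := K) (F := F) (v := v) b
    rw [← h1, ← h2]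
    rfl
  subst h
  exact log_core p A v hv hint V hV hLU D₀ I₀ hD hI

end Pool.Agent.Helper819.LU
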