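import Pool.Agent.Helper819.LU.Core

/-! Ascent of local uniformization. -/

set_option autoImplicit false
set_option linter.unusedSectionVars false

universe u

open MvPolynomial Pool.Agent.Helper819.TR Pool.Agent.Helper819.TR.RD

open scoped TensorProduct

namespace Pool.Agent.Helper819.LU

lemma lt_one_iff {F : Type u} [Field F] (V : ValuationSubring F) (z : F) :
    V.valuation z < 1 ↔ z = 0 ∨ z⁻¹ ∉ V := by
  by_cases hz : z = 0
  · simp [hz]
  · rw [or_iff_right hz, ← V.valuation_le_one_iff, map_inv₀, not_le]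
    exact (one_lt_inv₀ (zero_lt_iff.2 ((V.valuation.ne_zero_iff).2 hz))).symm

lemma comap_lt_one {K F : Type u} [Field K] [Field F] (i : K →+* F) (V : ValuationSubring F)
    (z : K) : (V.comap i).valuation z < 1 ↔ V.valuation (i z) < 1 := by
  rw [lt_one_iff, lt_one_iff, map_eq_zero, ← map_inv₀]
  rfl

/-- Uniformization of the subrings of a field. -/
def Unif {A K : Type u} [CommRing A] [Field K] [Algebra A K] (V : ValuationSubring K)
    (B : Subalgebra A K) : Prop :=
  B.FG ∧ (∀ b ∈ B, b ∈ V) ∧ IsRegularLocalRing (cr V B.toSubring)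

theorem lu_core {A K D F : Type u} [CommRing A] [IsDomain A] [IsNoetherianRing A] [Field K]
    [Algebra A K] [IsFractionRing A K] [CommRing D] [Bialgebra K D] [Algebra A D]
    [IsScalarTower A K D] (p : ℕ) [hp : Fact p.Prime] [CharP K p] {m : ℕ} (v : Fin m → D)
    (hv : ∀ i, Coalgebra.comul (R := K) (v i) = v i ⊗ₜ[K] 1 + 1 ⊗ₜ[K] v i)
    (hint : ∀ i, IsIntegral A (v i))
    (hLU : ∀ V : ValuationSubring K, (∀ a, algebraMap A K a ∈ V) → ∀ T : Finset K,
      (∀ t ∈ T, t ∈ V) → ∃ B : Subalgebra A K, (∀ t ∈ T, t ∈ B) ∧ Unif V B)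
    [Field F] [Algebra (invT A ({v} : Set (Fin m → D))) F]
    [IsFractionRing (invT A ({v} : Set (Fin m → D))) F] (V : ValuationSubring F)
    (hV : ∀ s, algebraMap (invT A ({v} : Set (Fin m → D))) F s ∈ V) :
    ∃ B : Subalgebra (invT A ({v} : Set (Fin m → D))) F, Unif V B := by
  classical
  have hnt : Nontrivial D := nontrivial_of_bialgebra K D
  have hchD : CharP D p := charP_of_bialgebra K D p
  obtain ⟨n, x, hn, hx0, hch⟩ := chart (A := A) (K := K) (D := D) p m v hv hint
  let VK := V.comap (iK A K F v)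
  have hVK : ∀ a, algebraMap A K a ∈ VK := by
    intro a
    change iK A K F v (algebraMap A K a) ∈ V
    rw [iK_alg]
    exact hV _
  obtain ⟨j, hj⟩ := exists_min VK hn x
  obtain ⟨B, hTB, hBfg, hBV, hBreg⟩ := hLU VK hVK (Finset.univ.image fun i => x i / x j) (by
    intro t ht
    obtain ⟨i, -, rfl⟩ := Finset.mem_image.1 ht
    exact hj i)
  obtain ⟨r, ι, κ, U, Fm, hU, hF, hind⟩ := hch B ⟨j, fun i => hTB _
    (Finset.mem_image_of_mem _ (Finset.mem_univ i))⟩
  have hft : Algebra.FiniteType A B := (Subalgebra.fg_iff_finiteType _).1 hBfg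
  have hno : IsNoetherianRing B := Algebra.FiniteType.isNoetherianRing A B
  have hinj : Function.Injective (algebraMap B D) :=
    (algebraMap K D).injective.comp Subtype.val_injective
  have hchar : CharP B p := (RingHom.charP_iff _ hinj p).2 inferInstance
  have hs := smooth_inv (p := p) (O := B) (D := D) (U := U) (F := Fm) (ι := ι) (κ := κ) hinj
    v hU hF hind
  have hBV' : ∀ b : B, iK A K F v (b : K) ∈ V := fun b => hBV b b.2
  have hφV := φ_mem v B F p hint V hV hBV'
  obtain ⟨P, hP, hPm⟩ := exists_centre B.val.toRingHom VK (fun b => hBV b b.2)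
  obtain ⟨Q, hQ, hQm⟩ := exists_centre (φ v B F) V hφV
  have hPQ : P = Q.under B := by
    ext b
    rw [hPm, Ideal.under_def, Ideal.mem_comap, hQm, φ_alg]
    exact comap_lt_one _ _ _
  have hregP : IsRegularLocalRing (Localization.AtPrime P) := by
    refine (reg_iff B.val.toRingHom Subtype.val_injective VK (fun b => hBV b b.2) P hPm).2 ?_
    have h1 : B.val.toRingHom.range = B.toSubring := by
      ext z
      constructor
      · rintro ⟨b, rfl⟩; exact b.2
      · intro hz; exact ⟨⟨z, hz⟩, rfl⟩
    rw [h1]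
    exact hBreg
  have hregQ := regular_of_smooth Q P hPQ hregP
  have hregc := (reg_iff (φ v B F) (φ_inj v B F) V hφV Q hQm).1 hregQ
  have hθ : (θ v B).FiniteType := by
    have h1 : ((θ v B).comp (algebraMap A (invT A ({v} : Set (Fin m → D))))).FiniteType := by
      have h2 : (θ v B).comp (algebraMap A (invT A ({v} : Set (Fin m → D)))) =
          (algebraMap B (invT B ({v} : Set (Fin m → D)))).comp (algebraMap A B) := by
        refine RingHom.ext fun a => Subtype.ext ?_
        change MvPolynomial.map (algebraMap A B) (C a) = C (algebraMap A B a)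
        rw [MvPolynomial.map_C]
      rw [h2]
      refine RingHom.FiniteType.comp ?_ ?_
      · have h3 : Algebra.FiniteType B (invT B ({v} : Set (Fin m → D))) := inferInstance
        exact RingHom.finiteType_algebraMap.2 h3
      · exact RingHom.finiteType_algebraMap.2 hft
    exact RingHom.FiniteType.of_comp_finiteType h1
  let _ : Algebra (invT A ({v} : Set (Fin m → D))) (invT B ({v} : Set (Fin m → D))) :=
    (θ v B).toAlgebra
  have hft2 : Algebra.FiniteType (invT A ({v} : Set (Fin m → D)))
    (invT B ({v} : Set (Fin m → D))) := hθ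
  let φ' : invT B ({v} : Set (Fin m → D)) →ₐ[invT A ({v} : Set (Fin m → D))] F :=
    { φ v B F with commutes' := fun s => φ_θ v B F s }
  refine ⟨φ'.range, ?_, ?_, ?_⟩
  · rw [← Algebra.map_top]
    exact Subalgebra.FG.map _ hft2.out
  · rintro _ ⟨s, rfl⟩
    exact hφV s
  · exact hregc

/-- Localizations do not change the local ring at the centre. -/
lemma cr_adjoin {R F : Type u} [CommRing R] [Field F] [Algebra R F] (V : ValuationSubring F)
    (D : Subring F) (G : Set F) (hG : ∀ g ∈ G, g ∈ D) (hD : D ≤ (Algebra.adjoin R G).toSubring)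
    (hden : ∀ r : R, ∃ c ∈ D, V.valuation c = 1 ∧ c * algebraMap R F r ∈ D) :
    cr V D = cr V (Algebra.adjoin R G).toSubring := by
  refine cr_eq V hD fun a ha => ?_
  induction ha using Algebra.adjoin_induction with
  | mem x hx => exact ⟨1, D.one_mem, map_one _, by rw [one_mul]; exact hG x hx⟩
  | algebraMap r => exact hden r
  | add x y _ _ hx hy =>
    obtain ⟨c, hc, hc1, hcx⟩ := hx
    obtain ⟨c', hc', hc1', hcy⟩ := hy
    refine ⟨c * c', D.mul_mem hc hc', by rw [map_mul, hc1, hc1', one_mul], ?_⟩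
    have h1 : c * c' * (x + y) = c' * (c * x) + c * (c' * y) := by ring
    rw [h1]
    exact D.add_mem (D.mul_mem hc' hcx) (D.mul_mem hc hcy)
  | mul x y _ _ hx hy =>
    obtain ⟨c, hc, hc1, hcx⟩ := hx
    obtain ⟨c', hc', hc1', hcy⟩ := hy
    refine ⟨c * c', D.mul_mem hc hc', by rw [map_mul, hc1, hc1', one_mul], ?_⟩
    have h1 : c * c' * (x * y) = (c * x) * (c' * y) := by ring
    rw [h1]
    exact D.mul_mem hcx hcy

lemma adjoin_mem {R F : Type u} [CommRing R] [Field F] [Algebra R F] (V : ValuationSubring F)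
    (hV : ∀ r, algebraMap R F r ∈ V) (G : Set F) (hG : ∀ g ∈ G, g ∈ V) :
    ∀ x ∈ Algebra.adjoin R G, x ∈ V := by
  intro x hx
  induction hx using Algebra.adjoin_induction with
  | mem x hx => exact hG x hx
  | algebraMap r => exact hV r
  | add x y _ _ hx hy => exact V.add_mem _ _ hx hy
  | mul x y _ _ hx hy => exact V.mul_mem _ _ hx hy

/-- From a ring to its local rings. -/
lemma unif_loc {S R F : Type u} [CommRing S] [CommRing R] [Algebra S R] [Field F] [Algebra S F]
    [Algebra R F] [IsScalarTower S R F] (Q : Ideal S) [Q.IsPrime] [IsLocalization.AtPrime R Q]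
    (V : ValuationSubring F) (hV : ∀ r : R, algebraMap R F r ∈ V)
    (hQ : ∀ s : S, s ∉ Q → V.valuation (algebraMap S F s) = 1) (B : Subalgebra S F)
    (hB : Unif V B) : ∃ B' : Subalgebra R F, (∀ b ∈ B, b ∈ B') ∧ Unif V B' := by
  obtain ⟨⟨G, rfl⟩, hBV, hreg⟩ := hB
  have hle : ∀ b ∈ Algebra.adjoin S (G : Set F), b ∈ Algebra.adjoin R (G : Set F) := by
    intro b hb
    induction hb using Algebra.adjoin_induction with
    | mem x hx => exact Algebra.subset_adjoin hx
    | algebraMap r =>
      rw [IsScalarTower.algebraMap_apply S R F]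
      exact Subalgebra.algebraMap_mem _ _
    | add x y _ _ hx hy => exact Subalgebra.add_mem _ hx hy
    | mul x y _ _ hx hy => exact Subalgebra.mul_mem _ hx hy
  refine ⟨Algebra.adjoin R (G : Set F), hle, ⟨G, rfl⟩, adjoin_mem V hV _ fun g hg =>
    hBV _ (Algebra.subset_adjoin hg), ?_⟩
  rw [← cr_adjoin V (Algebra.adjoin S (G : Set F)).toSubring G
    (fun g hg => Algebra.subset_adjoin hg) hle ?_]
  · exact hreg
  · intro r
    obtain ⟨⟨a, c⟩, hac⟩ := IsLocalization.surj Q.primeCompl r
    refine ⟨algebraMap S F c.1, Subalgebra.algebraMap_mem _ _, hQ _ c.2, ?_⟩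
    have h1 : algebraMap S F c.1 * algebraMap R F r = algebraMap S F a := by
      rw [IsScalarTower.algebraMap_apply S R F, IsScalarTower.algebraMap_apply S R F, ← map_mul,
        mul_comm, hac]
    rw [h1]
    exact Subalgebra.algebraMap_mem _ _

/-- From the local rings to a ring. -/
lemma unif_of_loc {A C R K : Type u} [CommRing A] [CommRing C] [CommRing R] [Algebra A C]
    [Algebra C R] [Field K] [Algebra A K] [Algebra C K]
    [Algebra R K] [IsScalarTower A C K] [IsScalarTower C R K] (P : Ideal C) [P.IsPrime]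
    [IsLocalization.AtPrime R P] (V : ValuationSubring K)
    (hP : ∀ s : C, s ∉ P → V.valuation (algebraMap C K s) = 1) (T : Finset K)
    (hT : (Algebra.adjoin A (T : Set K) : Set K) = Set.range (algebraMap C K))
    (B : Subalgebra R K) (hB : Unif V B) :
    ∃ B' : Subalgebra A K, (∀ t ∈ T, t ∈ B') ∧ Unif V B' := by
  classical
  obtain ⟨⟨G, rfl⟩, hBV, hreg⟩ := hB
  have hCR : ∀ c, algebraMap C K c ∈ Algebra.adjoin R (G : Set K) := by
    intro c
    rw [IsScalarTower.algebraMap_apply C R K]
    exact Subalgebra.algebraMap_mem _ _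
  have hTC : ∀ t ∈ Algebra.adjoin A (T : Set K), t ∈ Algebra.adjoin R (G : Set K) := by
    intro t ht
    have h1 : t ∈ (Algebra.adjoin A (T : Set K) : Set K) := ht
    rw [hT] at h1
    obtain ⟨c, rfl⟩ := h1
    exact hCR c
  have hle : ∀ b ∈ Algebra.adjoin A ((T ∪ G : Finset K) : Set K),
      b ∈ Algebra.adjoin R (G : Set K) := by
    intro b hb
    induction hb using Algebra.adjoin_induction with
    | mem x hx =>
      rcases Finset.mem_union.1 hx with h | h
      · exact hTC x (Algebra.subset_adjoin h)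
      · exact Algebra.subset_adjoin h
    | algebraMap r => exact hTC _ (Subalgebra.algebraMap_mem _ _)
    | add x y _ _ hx hy => exact Subalgebra.add_mem _ hx hy
    | mul x y _ _ hx hy => exact Subalgebra.mul_mem _ hx hy
  have hCB : ∀ c, algebraMap C K c ∈ Algebra.adjoin A ((T ∪ G : Finset K) : Set K) := by
    intro c
    have h1 : algebraMap C K c ∈ (Algebra.adjoin A (T : Set K) : Set K) := by
      rw [hT]; exact ⟨c, rfl⟩
    exact Algebra.adjoin_mono (fun x hx => Finset.mem_union_left _ hx) h1
  refine ⟨Algebra.adjoin A ((T ∪ G : Finset K) : Set K), fun t ht => Algebra.subset_adjoin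
    (Finset.mem_union_left _ ht), ⟨_, rfl⟩, fun b hb => hBV _ (hle b hb), ?_⟩
  rw [cr_adjoin V (Algebra.adjoin A ((T ∪ G : Finset K) : Set K)).toSubring (G : Set K)
    (fun g hg => Algebra.subset_adjoin (Finset.mem_union_right _ hg)) hle ?_]
  · exact hreg
  · intro r
    obtain ⟨⟨a, c⟩, hac⟩ := IsLocalization.surj P.primeCompl r
    refine ⟨algebraMap C K c.1, hCB _, hP _ c.2, ?_⟩
    have h1 : algebraMap C K c.1 * algebraMap R K r = algebraMap C K a := by
      rw [IsScalarTower.algebraMap_apply C R K, IsScalarTower.algebraMap_apply C R K, ← map_mul,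
        mul_comm, hac]
    rw [h1]
    exact hCB _

end Pool.Agent.Helper819.LU
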