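import Mathlib
import Pool.Agent.H968R2.FL.Param

/-! Regularity of smooth algebras over regular local rings. -/

set_option autoImplicit false

namespace Pool.Agent.Helper819.LU

open IsLocalRing Polynomial

universe u

section gens

variable {C : Type u} [CommRing C]

/-- Local generators of a prime of a regular ring. -/
theorem exists_local_gens_aux (P : Ideal C) [P.IsPrime]
    {d : ℕ} (z : Fin d → Localization.AtPrime P)
    (hz : Ideal.span (Set.range z) = maximalIdeal (Localization.AtPrime P)) :
    ∃ G : Finset C, (∀ g ∈ G, g ∈ P) ∧ G.card ≤ d ∧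
      Ideal.span (Set.range z) ≤
        Ideal.map (algebraMap C (Localization.AtPrime P)) (Ideal.span (G : Set C)) := by
  classical
  have hc : ∀ i, ∃ c : C, c ∈ P ∧ Ideal.span {z i} ≤
      Ideal.map (algebraMap C (Localization.AtPrime P)) (Ideal.span {c}) := by
    intro i
    obtain ⟨c, t, hct⟩ := IsLocalization.exists_mk'_eq P.primeCompl (z i)
    have hzi : z i ∈ maximalIdeal (Localization.AtPrime P) := by
      rw [← hz]; exact Ideal.subset_span ⟨i, rfl⟩
    refine ⟨c, ?_, ?_⟩
    · rw [← hct] at hzi
      exact (IsLocalization.AtPrime.mk'_mem_maximal_iff (Localization.AtPrime P) P c t).1 hzi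
    · rw [Ideal.span_singleton_le_iff_mem, ← hct, Ideal.map_span, Set.image_singleton]
      rw [Ideal.mem_span_singleton]
      refine ⟨IsLocalization.mk' _ 1 t, ?_⟩
      rw [← IsLocalization.mk'_one (M := P.primeCompl) (Localization.AtPrime P) c,
        ← IsLocalization.mk'_mul]
      simp
  choose c hcP hcz using hc
  refine ⟨Finset.univ.image c, ?_, ?_, ?_⟩
  · intro g hg
    obtain ⟨i, _, rfl⟩ := Finset.mem_image.1 hg
    exact hcP i
  · refine Finset.card_image_le.trans ?_
    rw [Finset.card_univ, Fintype.card_fin]
  · rw [Ideal.span_le]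
    rintro _ ⟨i, rfl⟩
    have h1 := hcz i (Ideal.mem_span_singleton_self _)
    refine Ideal.map_mono (Ideal.span_mono ?_) h1
    rw [Set.singleton_subset_iff]
    simp only [Finset.coe_image]
    exact ⟨i, by simp, rfl⟩

theorem mem_of_map_mem (P : Ideal C) [P.IsPrime] (J : Ideal C) (y : C)
    (h : algebraMap C (Localization.AtPrime P) y ∈ J.map (algebraMap C (Localization.AtPrime P))) :
    ∃ c, c ∉ P ∧ c * y ∈ J := by
  rw [IsLocalization.mem_map_algebraMap_iff P.primeCompl] at h
  obtain ⟨⟨⟨j, hj⟩, s⟩, hs⟩ := h
  simp only at hs
  rw [← map_mul] at hs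
  obtain ⟨t, ht⟩ := (IsLocalization.eq_iff_exists P.primeCompl _).1 hs
  refine ⟨t * s, (t * s).2, ?_⟩
  have : (t : C) * s * y = t * j := by rw [← ht]; ring
  rw [this]
  exact J.mul_mem_left _ hj

theorem exists_local_gens (P : Ideal C) [P.IsPrime]
    [IsRegularLocalRing (Localization.AtPrime P)] :
    ∃ G : Finset C, (∀ g ∈ G, g ∈ P) ∧ ((G.card : ℕ) : ℕ∞) ≤ P.height ∧
      ∀ y ∈ P, ∃ c, c ∉ P ∧ c * y ∈ Ideal.span (G : Set C) := by
  classical
  obtain ⟨d, z, hd, hz⟩ := Pool.Agent.H968R2.FL.exists_param (B := Localization.AtPrime P)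
  obtain ⟨G, hG, hcard, hle⟩ := exists_local_gens_aux P z hz
  refine ⟨G, hG, ?_, ?_⟩
  · rw [IsLocalization.AtPrime.ringKrullDim_eq_height P (Localization.AtPrime P)] at hd
    have h1 : P.height = (d : ℕ∞) := by exact_mod_cast hd
    rw [h1]
    exact_mod_cast hcard
  · intro y hy
    apply mem_of_map_mem P
    apply hle
    rw [hz]
    rw [← Localization.AtPrime.map_eq_maximalIdeal]
    exact Ideal.mem_map_of_mem _ hy

end gens

/-- Étale over a regular local ring. -/
theorem regular_of_etale {P B : Type u} [CommRing P] [IsNoetherianRing P] [CommRing B]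
    [Algebra P B] [Algebra.Etale P B] (Q : Ideal B) [Q.IsPrime] (p : Ideal P) [hp : p.IsPrime]
    (hpQ : p = Q.under P) [IsRegularLocalRing (Localization.AtPrime p)] :
    IsRegularLocalRing (Localization.AtPrime Q) := by
  classical
  have hB : IsNoetherianRing B := Algebra.FiniteType.isNoetherianRing P B
  have hover : Q.LiesOver p := ⟨hpQ⟩
  obtain ⟨G, hG, hcard, hgen⟩ := exists_local_gens p
  have hnoeth : IsNoetherianRing (Localization.AtPrime Q) :=
    IsLocalization.isNoetherianRing Q.primeCompl _ inferInstance
  let _ : Algebra (Localization.AtPrime p) (Localization.AtPrime Q) :=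
    Localization.AtPrime.algebraOfLiesOver p Q
  have hun : Algebra.IsUnramifiedAt P Q := inferInstance
  have h1 := ((Algebra.isUnramifiedAt_iff_map_eq P p Q).1 hun).2
  have hflat : Module.Flat P B := inferInstance
  have hht : p.height ≤ Q.height := by
    rw [Ideal.height_eq_height_add_of_liesOver_of_hasGoingDown p Q]
    exact le_self_add
  have hspan : maximalIdeal (Localization.AtPrime Q) =
      Ideal.span ((algebraMap P (Localization.AtPrime Q)) '' (G : Set P)) := by
    rw [← h1, ← Ideal.map_span]
    apply le_antisymm
    · rw [Ideal.map_le_iff_le_comap]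
      intro x hx
      obtain ⟨c, hc, hcx⟩ := hgen x hx
      rw [Ideal.mem_comap]
      have h2 : algebraMap P (Localization.AtPrime Q) (c * x) ∈
          Ideal.map (algebraMap P (Localization.AtPrime Q)) (Ideal.span (G : Set P)) :=
        Ideal.mem_map_of_mem _ hcx
      rw [map_mul] at h2
      have hu : IsUnit (algebraMap P (Localization.AtPrime Q) c) := by
        rw [IsScalarTower.algebraMap_apply P B]
        refine IsLocalization.map_units _ (⟨algebraMap P B c, ?_⟩ : Q.primeCompl)
        intro h
        apply hc
        rw [hpQ]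
        exact h
      exact (Ideal.unit_mul_mem_iff_mem _ hu).1 h2
    · apply Ideal.map_mono
      rw [Ideal.span_le]
      exact hG
  apply IsRegularLocalRing.of_spanFinrank_maximalIdeal_le
  rw [IsLocalization.AtPrime.ringKrullDim_eq_height Q (Localization.AtPrime Q), hspan]
  have h3 : (Submodule.spanFinrank (Ideal.span
      ((algebraMap P (Localization.AtPrime Q)) '' (G : Set P)))) ≤ G.card := by
    refine (Submodule.spanFinrank_span_le_ncard_of_finite
      ((Finset.finite_toSet G).image _)).trans ?_
    refine (Set.ncard_image_le (Finset.finite_toSet G)).trans ?_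
    rw [Set.ncard_coe_finset]
  have h2 : ((Submodule.spanFinrank (Ideal.span
      ((algebraMap P (Localization.AtPrime Q)) '' (G : Set P))) : ℕ) : ℕ∞) ≤ Q.height :=
    le_trans (by exact_mod_cast h3) (hcard.trans hht)
  exact_mod_cast h2

/-- Polynomial rings over regular local rings. -/
theorem regular_poly {R : Type u} [CommRing R] [IsNoetherianRing R] (p : Ideal R[X]) [hp : p.IsPrime]
    (h : IsRegularLocalRing (Localization.AtPrime (p.comap (C : R →+* R[X])))) :
    IsRegularLocalRing (Localization.AtPrime p) := by
  let q := p.comap C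
  let S := (Localization.AtPrime q)[X]
  let pc := Submonoid.map Polynomial.C.toMonoidHom q.primeCompl
  let : Algebra R[X] S := algebra R (Localization.AtPrime q)
  have : IsLocalization pc S := Polynomial.isLocalization _ _
  let pS := p.map (algebraMap R[X] S)
  have disj : Disjoint (pc : Set R[X]) (p : Set R[X]) := by
    simpa [pc, q] using! Set.disjoint_image_left.mpr
      (Set.disjoint_compl_left_iff_subset.mpr (fun _ a ↦ a))
  have : pS.IsPrime := IsLocalization.isPrime_of_isPrime_disjoint pc _ _ ‹_› disj
  have : IsLocalization.AtPrime (Localization.AtPrime pS) p := by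
    convert IsLocalization.isLocalization_isLocalization_atPrime_isLocalization pc
      (Localization.AtPrime pS) pS
    exact (IsLocalization.under_map_of_isPrime_disjoint pc _ ‹_› disj).symm
  have : IsRegularLocalRing (Localization.AtPrime q) := h
  have eq : Ideal.comap C pS = maximalIdeal (Localization.AtPrime q) := by
    rw [← IsLocalization.map_under q.primeCompl _ (Ideal.comap C pS),
      ← IsLocalization.map_under q.primeCompl _ (maximalIdeal (Localization.AtPrime q))]
    simp only [Ideal.comap_comap, S, pS]
    rw [← Polynomial.algebraMap_eq (R := Localization.AtPrime q),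
      ← IsScalarTower.algebraMap_eq R (Localization.AtPrime q) (Localization.AtPrime q)[X],
      IsScalarTower.algebraMap_eq R R[X] (Localization.AtPrime q)[X], ← Ideal.comap_comap,
      ← Ideal.under_def R[X], IsLocalization.under_map_of_isPrime_disjoint pc _ ‹_› disj]
    simp [q, IsLocalization.AtPrime.under_maximalIdeal (Localization.AtPrime q) q]
  have := isRegularLocalRing_localization_atPrime_of_comap_eq_maximalIdeal _ pS eq
  have h3 : Localization.AtPrime pS ≃ₐ[R[X]] Localization.AtPrime p :=
    IsLocalization.algEquiv p.primeCompl (Localization.AtPrime pS) (Localization.AtPrime p)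
  exact IsRegularLocalRing.of_ringEquiv (R := Localization.AtPrime pS) h3.toRingEquiv

theorem regular_congr {R : Type u} [CommRing R] {p q : Ideal R} [p.IsPrime] [q.IsPrime]
    (h : p = q) (hreg : IsRegularLocalRing (Localization.AtPrime p)) :
    IsRegularLocalRing (Localization.AtPrime q) := by
  subst h
  exact hreg

/-- Transport along ring isomorphisms. -/
theorem regular_equiv {R S : Type u} [CommRing R] [CommRing S] (e : R ≃+* S) (p : Ideal R)
    [p.IsPrime] (q : Ideal S) [q.IsPrime] (h : p = q.comap e)
    (hreg : IsRegularLocalRing (Localization.AtPrime p)) :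
    IsRegularLocalRing (Localization.AtPrime q) := by
  subst h
  exact IsRegularLocalRing.of_ringEquiv (IsLocalization.ringEquivOfRingEquiv
    (Localization.AtPrime (q.comap e)) (Localization.AtPrime q) e (e.map_primeCompl_comap_eq q))

theorem regular_mvpoly {R : Type u} [CommRing R] [IsNoetherianRing R] (n : ℕ) :
    ∀ (p : Ideal (MvPolynomial (Fin n) R)) [p.IsPrime],
      IsRegularLocalRing (Localization.AtPrime (p.comap (MvPolynomial.C : R →+* _))) →
      IsRegularLocalRing (Localization.AtPrime p) := by
  induction n with
  | zero =>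
    intro p hp h
    refine regular_equiv (MvPolynomial.isEmptyRingEquiv R (Fin 0)).symm
      (p.comap (MvPolynomial.C : R →+* _)) p ?_ h
    rfl
  | succ n ih =>
    intro p hp h
    let e : (MvPolynomial (Fin n) R)[X] ≃+* MvPolynomial (Fin (n + 1)) R :=
      (MvPolynomial.finSuccEquiv R n).symm.toRingEquiv
    let q : Ideal (MvPolynomial (Fin n) R)[X] := p.comap e
    have hq : q.IsPrime := hp.comap e
    refine regular_equiv e q p rfl (regular_poly q ?_)
    refine ih (q.comap C) ?_
    have h1 : p.comap MvPolynomial.C = (q.comap C).comap (MvPolynomial.C : R →+* _) := by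
      ext a
      rw [Ideal.mem_comap, Ideal.mem_comap, Ideal.mem_comap, Ideal.mem_comap]
      have h2 : (MvPolynomial.finSuccEquiv R n).symm (C (MvPolynomial.C a)) =
          MvPolynomial.C a := by
        rw [AlgEquiv.symm_apply_eq, MvPolynomial.finSuccEquiv_apply, MvPolynomial.eval₂Hom_C]
        rfl
      have h3 : e (C (MvPolynomial.C a)) = MvPolynomial.C a := h2
      rw [h3]
    exact regular_congr h1 h

/-- Smooth algebras over regular local rings are regular. -/
theorem regular_of_smooth {B A : Type u} [CommRing B] [IsNoetherianRing B] [CommRing A]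
    [Algebra B A] [Algebra.Smooth B A] (q : Ideal A) [q.IsPrime] (p : Ideal B) [p.IsPrime]
    (hpq : p = q.under B) (hreg : IsRegularLocalRing (Localization.AtPrime p)) :
    IsRegularLocalRing (Localization.AtPrime q) := by
  have hsm : Algebra.IsSmoothAt B q := inferInstance
  obtain ⟨f, hf, n, alg, tower, het⟩ :=
    Algebra.IsSmoothAt.exists_isStandardEtale_mvPolynomial (R := B) (S := A) (p := q)
  have het' : Algebra.Etale (MvPolynomial (Fin n) B) (Localization.Away f) := inferInstance
  have hQ : (Ideal.map (algebraMap A (Localization.Away f)) q).IsPrime :=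
    IsLocalization.isPrime_of_isPrime_disjoint (.powers f) _ _ ‹_›
      ((Ideal.disjoint_powers_iff_notMem_of_isPrime _).mpr hf)
  have h2 : (Ideal.map (algebraMap A (Localization.Away f)) q).comap
      (algebraMap A (Localization.Away f)) = q :=
    IsLocalization.under_map_of_isPrime_disjoint (.powers f) _ ‹_›
      ((Ideal.disjoint_powers_iff_notMem_of_isPrime _).mpr hf)
  let P1 : Ideal (MvPolynomial (Fin n) B) :=
    (Ideal.map (algebraMap A (Localization.Away f)) q).under (MvPolynomial (Fin n) B)
  have hP1 : P1.IsPrime := Ideal.IsPrime.under _ _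
  have h4 : P1.comap (MvPolynomial.C : B →+* _) = p := by
    rw [hpq]
    change Ideal.comap (algebraMap B (MvPolynomial (Fin n) B)) (Ideal.comap (algebraMap
      (MvPolynomial (Fin n) B) (Localization.Away f)) _) = Ideal.comap _ q
    rw [Ideal.comap_comap, ← IsScalarTower.algebraMap_eq,
      IsScalarTower.algebraMap_eq B A (Localization.Away f), ← Ideal.comap_comap, h2]
  have h5 : IsRegularLocalRing (Localization.AtPrime P1) := by
    refine regular_mvpoly n P1 ?_
    exact regular_congr h4.symm hreg
  have h1 := regular_of_etale (P := MvPolynomial (Fin n) B)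
    (Ideal.map (algebraMap A (Localization.Away f)) q) P1 rfl
  have h3 := IsLocalization.isLocalization_isLocalization_atPrime_isLocalization (.powers f)
    (Localization.AtPrime (Ideal.map (algebraMap A (Localization.Away f)) q))
    (Ideal.map (algebraMap A (Localization.Away f)) q)
  simp only [h2] at h3
  exact IsRegularLocalRing.of_ringEquiv (IsLocalization.algEquiv q.primeCompl
    (Localization.AtPrime (Ideal.map (algebraMap A (Localization.Away f)) q))
    (Localization.AtPrime q)).toRingEquiv

end Pool.Agent.Helper819.LU
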